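import Pool.Agent.H281A.Moment

/-!
Lower bounds for the number of reduced monomials of degree slightly below the middle.
-/

set_option autoImplicit false

namespace Pool.Agent.H281A

open Finset

variable {p : ℕ} [Fact p.Prime]

/-- centered digit -/
def cd (p : ℕ) (a : Fin p) : ℤ := 2 * ((a : ℕ) : ℤ) - ((p : ℤ) - 1)

omit [Fact p.Prime] in
lemma cd_rev (a : Fin p) : cd p a.rev = -cd p a := by
  unfold cd
  rw [Fin.val_rev]
  have h := a.2
  rw [Nat.cast_sub (by omega)]
  push_cast
  ring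

omit [Fact p.Prime] in
lemma cd_sum1 : ∑ a, cd p a = 0 := by
  have h : ∑ a, cd p a = ∑ a, -cd p a := by
    rw [← Equiv.sum_comp Fin.revPerm]
    exact Finset.sum_congr rfl fun a _ => cd_rev a
  rw [Finset.sum_neg_distrib] at h
  linarith

omit [Fact p.Prime] in
lemma cd_sum3 : ∑ a, cd p a ^ 3 = 0 := by
  have h : ∑ a, cd p a ^ 3 = ∑ a, -(cd p a ^ 3) := by
    rw [← Equiv.sum_comp Fin.revPerm]
    refine Finset.sum_congr rfl fun a _ => ?_
    rw [Fin.revPerm_apply, cd_rev]; ring
  rw [Finset.sum_neg_distrib] at h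
  linarith

omit [Fact p.Prime] in
lemma cd_abs (a : Fin p) : cd p a ^ 2 ≤ ((p : ℤ) - 1) ^ 2 := by
  unfold cd
  have h : ((a : ℕ) : ℤ) + 1 ≤ p := by exact_mod_cast a.2
  have h0 : (0 : ℤ) ≤ ((a : ℕ) : ℤ) := by positivity
  rw [sq_le_sq, abs_of_nonneg (by linarith : (0 : ℤ) ≤ (p : ℤ) - 1), abs_le]
  constructor <;> linarith

omit [Fact p.Prime] in
lemma cd_sum2 (hp : 2 ≤ p) : (Fintype.card (Fin p) : ℤ) ≤ ∑ a, cd p a ^ 2 := by
  classical
  have h0 : (⟨0, by omega⟩ : Fin p) ≠ ⟨p - 1, by omega⟩ := by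
    intro h
    have := congrArg Fin.val h
    simp only at this
    omega
  have h1 : ∑ a ∈ ({⟨0, by omega⟩, ⟨p - 1, by omega⟩} : Finset (Fin p)), cd p a ^ 2 ≤
      ∑ a, cd p a ^ 2 :=
    Finset.sum_le_sum_of_subset_of_nonneg (Finset.subset_univ _) fun _ _ _ => by positivity
  rw [Finset.sum_pair h0] at h1
  have hp1 : ((p - 1 : ℕ) : ℤ) = (p : ℤ) - 1 := by
    rw [Nat.cast_sub (by omega)]; simp
  simp only [cd, hp1] at h1
  rw [Fintype.card_fin]
  have h2 : (2 : ℤ) ≤ p := by exact_mod_cast hp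
  push_cast at h1
  simp only [cd]
  nlinarith [h1]

omit [Fact p.Prime] in
lemma cd_sum4 : ∑ a, cd p a ^ 4 ≤ (((p - 1) ^ 2 : ℕ) : ℤ) * ∑ a, cd p a ^ 2 := by
  rcases Nat.eq_zero_or_pos p with rfl | hp
  · simp
  have hp1 : (((p - 1) ^ 2 : ℕ) : ℤ) = ((p : ℤ) - 1) ^ 2 := by
    rw [Nat.cast_pow, Nat.cast_sub (by omega)]; simp
  rw [hp1, Finset.mul_sum]
  refine Finset.sum_le_sum fun a _ => ?_
  have h := mul_le_mul_of_nonneg_right (cd_abs a) (sq_nonneg (cd p a))
  calc cd p a ^ 4 = cd p a ^ 2 * cd p a ^ 2 := by ring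
    _ ≤ _ := h

/-- A block length for which many words have a small digit sum. -/
theorem exists_block (s : ℕ) (hs : 1 ≤ s) : ∃ B u : ℕ, 1 ≤ B ∧ 2 * u + s ≤ (p - 1) * B ∧
    p ^ B ≤ 32 * (Red p (Fin B) u).card := by
  classical
  have hp := (Fact.out : p.Prime).two_le
  set B := 2 * s ^ 2 + (p - 1) ^ 2 + s with hB
  have hB1 : 1 ≤ B := by omega
  have hsB : s ≤ (p - 1) * B := by
    calc s ≤ 1 * B := by omega
      _ ≤ (p - 1) * B := Nat.mul_le_mul_right _ (by omega)
  set u := ((p - 1) * B - s) / 2 with hu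
  have hu1 : 2 * u + s ≤ (p - 1) * B := by omega
  have hu2 : (p - 1) * B - s ≤ 2 * u + 1 := by omega
  refine ⟨B, u, hB1, hu1, ?_⟩
  have h := anticonc (c := cd p) cd_sum1 cd_sum3 B s ((p - 1) ^ 2) (cd_sum2 hp)
    (by rw [Fintype.card_fin]; omega) cd_sum4 (by omega) (by omega) hB1
  rw [Fintype.card_fin] at h
  refine h.trans ?_
  have hSm : ∀ f : Fin B → Fin p, Sm (cd p) f = 2 * ((∑ i, (f i : ℕ) : ℕ) : ℤ) -
      (((p - 1) * B : ℕ) : ℤ) := by
    intro f
    unfold Sm cd
    rw [Finset.sum_sub_distrib, ← Finset.mul_sum, Finset.sum_const, Finset.card_univ,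
      Fintype.card_fin, nsmul_eq_mul]
    push_cast
    rw [Nat.cast_sub (by omega)]
    push_cast
    ring
  -- lower tail
  have hlow : (univ.filter fun f : Fin B → Fin p => Sm (cd p) f ≤ -(s : ℤ)) ⊆
      Red p (Fin B) u := by
    intro f hf
    rw [Finset.mem_filter, hSm] at hf
    rw [mem_Red]
    have := hf.2
    omega
  have hup : (univ.filter fun f : Fin B → Fin p => (s : ℤ) ≤ Sm (cd p) f).card =
      (univ.filter fun f : Fin B → Fin p => Sm (cd p) f ≤ -(s : ℤ)).card := by
    have hneg : ∀ f : Fin B → Fin p, Sm (cd p) (fun i => (f i).rev) = -Sm (cd p) f := by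
      intro f
      unfold Sm
      rw [← Finset.sum_neg_distrib]
      exact Finset.sum_congr rfl fun i _ => cd_rev _
    refine Finset.card_bij' (fun f _ => fun i => (f i).rev) (fun f _ => fun i => (f i).rev)
      ?_ ?_ ?_ ?_
    · intro f hf
      rw [Finset.mem_filter] at hf ⊢
      refine ⟨mem_univ _, ?_⟩
      rw [hneg]; linarith [hf.2]
    · intro f hf
      rw [Finset.mem_filter] at hf ⊢
      refine ⟨mem_univ _, ?_⟩
      rw [hneg]; linarith [hf.2]
    · intro f _; simp
    · intro f _; simp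
  have hunion : (univ.filter fun f : Fin B → Fin p => (s : ℤ) ≤ |Sm (cd p) f|) ⊆
      (univ.filter fun f : Fin B → Fin p => (s : ℤ) ≤ Sm (cd p) f) ∪
      (univ.filter fun f : Fin B → Fin p => Sm (cd p) f ≤ -(s : ℤ)) := by
    intro f hf
    rw [Finset.mem_filter] at hf
    rw [Finset.mem_union, Finset.mem_filter, Finset.mem_filter]
    rcases le_abs.1 hf.2 with h | h
    · exact Or.inl ⟨mem_univ _, h⟩
    · exact Or.inr ⟨mem_univ _, by linarith⟩
  have h1 := (Finset.card_le_card hunion).trans (Finset.card_union_le _ _)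
  have h2 := Finset.card_le_card hlow
  omega

/-- Products of blocks. -/
theorem card_Red_blocks (B u n : ℕ) :
    (Red p (Fin B) u).card ^ (n / B) * p ^ (n % B) ≤
      (Red p (Fin n) (n / B * u + (p - 1) * (n % B))).card := by
  classical
  have hp := (Fact.out : p.Prime).two_le
  set q := n / B with hq
  set r := n % B with hr
  have hn : q * B + r = n := by rw [hq, hr, mul_comm]; exact Nat.div_add_mod n B
  let e : (Fin q × Fin B) ⊕ Fin r ≃ Fin n :=
    ((finProdFinEquiv.sumCongr (Equiv.refl _)).trans finSumFinEquiv).trans (finCongr hn)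
  let φ : (Fin q → Red p (Fin B) u) × (Fin r → Fin p) → (Fin n → Fin p) := fun w j =>
    Sum.elim (fun x : Fin q × Fin B => (w.1 x.1).1 x.2) w.2 (e.symm j)
  have hφ : Function.Injective φ := by
    intro w w' h
    have h1 : ∀ x, Sum.elim (fun x : Fin q × Fin B => (w.1 x.1).1 x.2) w.2 x =
        Sum.elim (fun x : Fin q × Fin B => (w'.1 x.1).1 x.2) w'.2 x := by
      intro x
      have := congrFun h (e x)
      simpa [φ] using this
    refine Prod.ext ?_ ?_
    · funext i
      refine Subtype.ext (funext fun j => ?_)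
      simpa using h1 (Sum.inl (i, j))
    · funext j
      simpa using h1 (Sum.inr j)
  have hcard : (Red p (Fin B) u).card ^ q * p ^ r =
      Fintype.card ((Fin q → Red p (Fin B) u) × (Fin r → Fin p)) := by
    rw [Fintype.card_prod, Fintype.card_fun, Fintype.card_fun, Fintype.card_fin, Fintype.card_fin,
      Fintype.card_fin, Fintype.card_coe]
  rw [hcard, ← Finset.card_univ]
  refine Finset.card_le_card_of_injOn φ ?_ hφ.injOn
  intro w _
  rw [Finset.mem_coe, mem_Red]
  have h1 : ∑ j, (φ w j : ℕ) =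
      ∑ x, ((Sum.elim (fun x : Fin q × Fin B => (w.1 x.1).1 x.2) w.2 x : Fin p) : ℕ) := by
    rw [← Equiv.sum_comp e]
    refine Finset.sum_congr rfl fun x _ => ?_
    simp [φ]
  rw [h1, Fintype.sum_sum_type]
  refine add_le_add ?_ ?_
  · rw [Fintype.sum_prod_type]
    calc ∑ x : Fin q, ∑ y : Fin B,
        ((Sum.elim (fun x : Fin q × Fin B => (w.1 x.1).1 x.2) w.2 (Sum.inl (x, y)) : Fin p) : ℕ)
        ≤ ∑ _x : Fin q, u := by
          refine Finset.sum_le_sum fun x _ => ?_
          simp only [Sum.elim_inl]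
          exact mem_Red.1 (w.1 x).2
      _ = q * u := by simp
  · calc ∑ x : Fin r,
        ((Sum.elim (fun x : Fin q × Fin B => (w.1 x.1).1 x.2) w.2 (Sum.inr x) : Fin p) : ℕ)
        ≤ ∑ _x : Fin r, (p - 1) := by
          refine Finset.sum_le_sum fun x _ => ?_
          have := (w.2 x).2
          simp only [Sum.elim_inr]
          omega
      _ = (p - 1) * r := by simp [mul_comm]

theorem lower_blocks {B u : ℕ} (h : p ^ B ≤ 32 * (Red p (Fin B) u).card) (n : ℕ) :
    p ^ n ≤ 32 ^ (n / B) * (Red p (Fin n) (n / B * u + (p - 1) * (n % B))).card := by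
  have h1 := card_Red_blocks (p := p) B u n
  calc p ^ n = (p ^ B) ^ (n / B) * p ^ (n % B) := by
        rw [← pow_mul, ← pow_add, Nat.div_add_mod]
    _ ≤ (32 * (Red p (Fin B) u).card) ^ (n / B) * p ^ (n % B) :=
        Nat.mul_le_mul_right _ (Nat.pow_le_pow_left h _)
    _ = 32 ^ (n / B) * ((Red p (Fin B) u).card ^ (n / B) * p ^ (n % B)) := by
        rw [mul_pow]; ring
    _ ≤ _ := Nat.mul_le_mul_left _ h1

omit [Fact p.Prime] in
/-- The simple product bound. -/
theorem lower_simple (n u : ℕ) (hu : u + 1 ≤ p) : (u + 1) ^ n ≤ (Red p (Fin n) (u * n)).card := by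
  classical
  have hcard : (u + 1) ^ n = Fintype.card (Fin n → Fin (u + 1)) := by
    rw [Fintype.card_fun, Fintype.card_fin, Fintype.card_fin]
  rw [hcard, ← Finset.card_univ]
  refine Finset.card_le_card_of_injOn (fun w i => (w i).castLE hu) ?_ ?_
  · intro w _
    rw [Finset.mem_coe, mem_Red]
    calc ∑ i, (((w i).castLE hu : Fin p) : ℕ) ≤ ∑ _i : Fin n, u := by
          refine Finset.sum_le_sum fun i _ => ?_
          have := (w i).2
          simp only [Fin.val_castLE]
          omega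
      _ = u * n := by simp [mul_comm]
  · intro w _ w' _ h
    funext i
    have := congrFun h i
    exact Fin.castLE_injective hu this

end Pool.Agent.H281A
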