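import Pool.Agent.H281A.Poly

/-!
The degree closure of a subset of `F_p ^ ι` (after Nie and Wang), polynomials that vanish on a
small set, and approximate indicator functions of varieties.
-/

set_option autoImplicit false

namespace Pool.Agent.H281A

open Finset

variable {p : ℕ} [Fact p.Prime] {ι : Type} [Fintype ι] [DecidableEq ι]

/-- the point of the grid with given coordinates -/
def pt (b : ι → Fin p) : ι → ZMod p := fun i => ((b i : ℕ) : ZMod p)

omit [Fintype ι] [DecidableEq ι] in
lemma pt_inj {b c : ι → Fin p} (h : pt b = pt c) : b = c := by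
  funext i
  have h1 := congrFun h i
  unfold pt at h1
  rw [ZMod.natCast_eq_natCast_iff'] at h1
  rw [Nat.mod_eq_of_lt (b i).2, Nat.mod_eq_of_lt (c i).2] at h1
  exact Fin.ext h1

/-- the test polynomial -/
def tst (b : ι → Fin p) (v x : ι → ZMod p) : ZMod p :=
  ∏ i, ∏ j ∈ range (b i), (x i - v i - (j : ZMod p))

omit [DecidableEq ι] in
lemma tst_mem [DecidableEq ι] (b : ι → Fin p) (v : ι → ZMod p) {D : ℕ} (hb : ∑ i, (b i : ℕ) ≤ D) :
    (fun x => tst b v x) ∈ L p ι D := by
  have h := L_prod (p := p) (ι := ι) univ (fun i => ∑ j ∈ range (b i), 1)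
    (fun i => ∏ j ∈ range (b i), fun x : ι → ZMod p => x i - v i - (j : ZMod p)) fun i _ => by
      refine L_prod (p := p) (ι := ι) (range (b i)) (fun _ => 1) _ fun j _ => ?_
      have h1 := Submodule.sub_mem _ (L_coord (p := p) i) (L_const 1 (v i + (j : ZMod p)))
      convert h1 using 1
      funext x
      simp only [Pi.sub_apply]
      ring
  simp only [sum_const, card_range, smul_eq_mul, mul_one] at h
  convert L_mono hb h using 1
  funext x
  simp [tst, Finset.prod_apply]

omit [DecidableEq ι] in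
lemma tst_ne (b c : ι → Fin p) (v : ι → ZMod p) (h : tst b v (pt c + v) ≠ 0) :
    ∀ i, (b i : ℕ) ≤ c i := by
  intro i
  unfold tst at h
  rw [Finset.prod_ne_zero_iff] at h
  have h1 := h i (mem_univ _)
  rw [Finset.prod_ne_zero_iff] at h1
  by_contra hc
  push Not at hc
  refine h1 (c i) (mem_range.2 hc) ?_
  simp [pt]

omit [DecidableEq ι] in
lemma tst_self (b : ι → Fin p) (v : ι → ZMod p) : tst b v (pt b + v) ≠ 0 := by
  unfold tst
  rw [Finset.prod_ne_zero_iff]
  intro i _
  rw [Finset.prod_ne_zero_iff]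
  intro j hj
  rw [mem_range] at hj
  simp only [pt, Pi.add_apply, add_sub_cancel_right]
  rw [sub_ne_zero]
  intro h
  rw [ZMod.natCast_eq_natCast_iff'] at h
  rw [Nat.mod_eq_of_lt (b i).2, Nat.mod_eq_of_lt (hj.trans (b i).2)] at h
  omega

/-- Evaluation functional. -/
def ev (D : ℕ) (z : ι → ZMod p) : L p ι D →ₗ[ZMod p] ZMod p where
  toFun f := f.1 z
  map_add' _ _ := rfl
  map_smul' _ _ := rfl

lemma ev_indep (D : ℕ) (v : ι → ZMod p) (B : Finset (ι → Fin p)) (hB : B ⊆ Red p ι D) :
    LinearIndependent (ZMod p) (fun b : B => ev (p := p) D (pt b.1 + v)) := by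
  classical
  rw [Fintype.linearIndependent_iff]
  intro c hc
  by_contra hne
  push Not at hne
  obtain ⟨z0, hz0⟩ := hne
  obtain ⟨z, hz, hmax⟩ := Finset.exists_max_image (univ.filter fun z : B => c z ≠ 0)
    (fun z => ∑ i, (z.1 i : ℕ)) ⟨z0, by simp [hz0]⟩
  rw [Finset.mem_filter] at hz
  have hf := tst_mem z.1 v (mem_Red.1 (hB z.2))
  have h1 : (∑ w : B, c w • ev (p := p) D (pt w.1 + v)) ⟨_, hf⟩ = 0 := by rw [hc]; rfl
  have h2 : (∑ w : B, c w • ev (p := p) D (pt w.1 + v)) ⟨_, hf⟩ =
      ∑ w : B, c w * tst z.1 v (pt w.1 + v) := by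
    rw [LinearMap.sum_apply]
    rfl
  rw [h2, Finset.sum_eq_single z] at h1
  · exact hz.2 ((mul_eq_zero.1 h1).resolve_right (tst_self _ _))
  · intro w _ hw
    by_cases hcw : c w = 0
    · rw [hcw, zero_mul]
    · have hle := hmax w (by rw [Finset.mem_filter]; exact ⟨Finset.mem_univ _, hcw⟩)
      by_contra hne
      have h3 : tst z.1 v (pt w.1 + v) ≠ 0 := fun h => hne (by rw [h, mul_zero])
      have h4 := tst_ne _ _ _ h3
      apply hw
      refine Subtype.ext (funext fun i => Fin.ext ?_)
      have h5 := (Finset.sum_eq_sum_iff_of_le fun i _ => h4 i).1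
        (le_antisymm (Finset.sum_le_sum fun i _ => h4 i) hle) i (mem_univ _)
      exact h5.symm
  · intro h
    exact absurd (Finset.mem_univ _) h

/-- The degree closure of `E` is not much larger than `E`. -/
theorem closure_le (D : ℕ) (E Z : Finset (ι → ZMod p))
    (hZ : ∀ z ∈ Z, ∀ f ∈ L p ι D, (∀ e ∈ E, f e = 0) → f z = 0) :
    Z.card * (Red p ι D).card ≤ p ^ Fintype.card ι * E.card := by
  classical
  have hspan : ∀ z ∈ Z, ev (p := p) D z ∈
      Submodule.span (ZMod p) (Set.range fun e : E => ev (p := p) D e.1) := by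
    intro z hz
    refine mem_span_of_iInf_ker_le_ker ?_
    intro f hf
    rw [Submodule.mem_iInf] at hf
    rw [LinearMap.mem_ker]
    exact hZ z hz f.1 f.2 fun e he => hf ⟨e, he⟩
  have hball : ∀ v : ι → ZMod p, ((Red p ι D).filter fun b => pt b + v ∈ Z).card ≤ E.card := by
    intro v
    set B := (Red p ι D).filter fun b => pt b + v ∈ Z with hBdef
    have hB : B ⊆ Red p ι D := Finset.filter_subset _ _
    have hBZ : ∀ b ∈ B, pt b + v ∈ Z := fun z hz => (Finset.mem_filter.1 hz).2
    let w : B → Submodule.span (ZMod p) (Set.range fun e : E => ev (p := p) D e.1) :=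
      fun b => ⟨ev (p := p) D (pt b.1 + v), hspan _ (hBZ b.1 b.2)⟩
    have hv : LinearIndependent (ZMod p) w := by
      refine LinearIndependent.of_comp (Submodule.subtype _) ?_
      exact ev_indep D v B hB
    have h1 := hv.fintype_card_le_finrank
    have h2 : Module.finrank (ZMod p)
        (Submodule.span (ZMod p) (Set.range fun e : E => ev (p := p) D e.1)) ≤
        Fintype.card E := finrank_range_le_card _
    have h3 := h1.trans h2
    simpa using h3
  have hcount : ∑ v : ι → ZMod p, ((Red p ι D).filter fun b => pt b + v ∈ Z).card =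
      Z.card * (Red p ι D).card := by
    simp only [Finset.card_filter]
    rw [Finset.sum_comm]
    have h1 : ∀ b ∈ Red p ι D, ∑ v : ι → ZMod p, (if pt b + v ∈ Z then 1 else 0) = Z.card := by
      intro b _
      rw [← Finset.card_filter]
      refine Finset.card_bij' (fun v _ => pt b + v) (fun z _ => z - pt b) ?_ ?_ ?_ ?_
      · intro v hv; simpa using hv
      · intro z hz; simpa using hz
      · intro v _; simp
      · intro z _; simp
    rw [Finset.sum_congr rfl h1, Finset.sum_const, smul_eq_mul, mul_comm]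
  rw [← hcount]
  calc _ ≤ ∑ _v : ι → ZMod p, E.card := Finset.sum_le_sum fun a _ => hball a
    _ = p ^ Fintype.card ι * E.card := by
      rw [Finset.sum_const, smul_eq_mul, Finset.card_univ, Fintype.card_pi, Finset.prod_const,
        ZMod.card, Finset.card_univ]

/-- A function of low degree which vanishes on `E` but not on most points of `V`. -/
theorem exists_vanish (D : ℕ) (E V : Finset (ι → ZMod p)) :
    ∃ h ∈ L p ι D, (∀ e ∈ E, h e = 0) ∧ ∃ z : ℕ,
      z * (Red p ι D).card ≤ p ^ Fintype.card ι * E.card ∧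
      V.card ≤ z + 2 * (V.filter fun y => h y ≠ 0).card := by
  classical
  let W : Submodule (ZMod p) ((ι → ZMod p) → ZMod p) :=
    { carrier := {f | f ∈ L p ι D ∧ ∀ e ∈ E, f e = 0}
      add_mem' := fun {f g} hf hg => ⟨Submodule.add_mem _ hf.1 hg.1, fun e he => by
        rw [Pi.add_apply, hf.2 e he, hg.2 e he, add_zero]⟩
      zero_mem' := ⟨Submodule.zero_mem _, fun _ _ => rfl⟩
      smul_mem' := fun c f hf => ⟨Submodule.smul_mem _ c hf.1, fun e he => by
        rw [Pi.smul_apply, hf.2 e he, smul_zero]⟩ }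
  set Z : Finset (ι → ZMod p) := univ.filter fun z => ∀ f ∈ W, f z = 0 with hZ
  have hZc : Z.card * (Red p ι D).card ≤ p ^ Fintype.card ι * E.card := by
    refine closure_le D E Z fun z hz f hf hfe => ?_
    rw [hZ, Finset.mem_filter] at hz
    exact hz.2 f ⟨hf, hfe⟩
  obtain ⟨w, hw, hwc⟩ := avg W (V \ Z) fun x hx => by
    rw [Finset.mem_sdiff, hZ, Finset.mem_filter] at hx
    have := hx.2
    push Not at this
    exact this (mem_univ _)
  refine ⟨w, hw.1, hw.2, Z.card, hZc, ?_⟩
  have hp := (Fact.out : p.Prime).two_le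
  have h1 : 2 * ((V \ Z).filter fun x => w x = 0).card ≤ (V \ Z).card :=
    (Nat.mul_le_mul_right _ hp).trans (by convert hwc)
  have h2 : ((V \ Z).filter fun x => w x = 0).card + ((V \ Z).filter fun x => w x ≠ 0).card =
      (V \ Z).card := Finset.card_filter_add_card_filter_not _
  have h3 : ((V \ Z).filter fun x => w x ≠ 0).card ≤ (V.filter fun x => w x ≠ 0).card :=
    Finset.card_le_card (Finset.filter_subset_filter _ Finset.sdiff_subset)
  have h4 : V.card ≤ Z.card + (V \ Z).card := by
    have := Finset.card_le_card_sdiff_add_card (s := V) (t := Z)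
    omega
  omega

/-- Approximate indicator functions of varieties. -/
theorem approx_variety {d : ℕ} (F : Set ((ι → ZMod p) → ZMod p)) (hF : ∀ f ∈ F, f ∈ L p ι d)
    (t : ℕ) :
    ∃ P ∈ L p ι ((p - 1) * d * t), ∃ E : Finset (ι → ZMod p),
      p ^ t * E.card ≤ p ^ Fintype.card ι ∧
      (∀ x, (∀ f ∈ F, f x = 0) → P x = 1) ∧ ∀ x, x ∉ E → (¬ ∀ f ∈ F, f x = 0) → P x = 0 := by
  classical
  induction t with
  | zero =>
    refine ⟨1, L_one _, univ, ?_, fun _ _ => rfl, fun x hx => absurd (mem_univ x) hx⟩
    rw [Finset.card_univ, Fintype.card_pi, Finset.prod_const, ZMod.card, Finset.card_univ]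
    simp
  | succ t ih =>
    obtain ⟨P, hP, E, hE, h1, h0⟩ := ih
    obtain ⟨w, hw, hwc⟩ := avg (Submodule.span (ZMod p) F)
      (E.filter fun x => ¬ ∀ f ∈ F, f x = 0) fun x hx => by
        rw [Finset.mem_filter] at hx
        have := hx.2
        push Not at this
        obtain ⟨f, hf, hfx⟩ := this
        exact ⟨f, Submodule.subset_span hf, hfx⟩
    have hwL : w ∈ L p ι d := (Submodule.span_le.2 fun f hf => hF f hf) hw
    have hw0 : ∀ x, (∀ f ∈ F, f x = 0) → w x = 0 := by
      intro x hx
      have : ∀ g ∈ Submodule.span (ZMod p) F, g x = 0 := by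
        intro g hg
        induction hg using Submodule.span_induction with
        | mem f hf => exact hx f hf
        | zero => rfl
        | add f g _ _ hf hg => rw [Pi.add_apply, hf, hg, add_zero]
        | smul c f _ hf => rw [Pi.smul_apply, hf, smul_zero]
      exact this w hw
    have hp := (Fact.out : p.Prime).two_le
    refine ⟨P * (1 - w ^ (p - 1)), ?_, (E.filter fun x => ¬ ∀ f ∈ F, f x = 0).filter
      fun x => w x = 0, ?_, ?_, ?_⟩
    · have h2 := L_pow (p - 1) hwL
      have h3 := L_mul hP (Submodule.sub_mem _ (L_one ((p - 1) * d)) h2)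
      rw [mul_add, mul_one]
      exact h3
    · rw [pow_succ]
      have h5 : p * ((E.filter fun x => ¬ ∀ f ∈ F, f x = 0).filter fun x => w x = 0).card ≤
          (E.filter fun x => ¬ ∀ f ∈ F, f x = 0).card := by convert hwc
      calc p ^ t * p * _ = p ^ t * (p * _) := by ring
        _ ≤ p ^ t * (E.filter fun x => ¬ ∀ f ∈ F, f x = 0).card := Nat.mul_le_mul_left _ h5
        _ ≤ p ^ t * E.card := Nat.mul_le_mul_left _ (Finset.card_le_card
            (Finset.filter_subset _ _))
        _ ≤ _ := hE
    · intro x hx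
      simp only [Pi.mul_apply, Pi.sub_apply, Pi.one_apply, Pi.pow_apply]
      rw [h1 x hx, hw0 x hx, zero_pow (by omega)]
      ring
    · intro x hx hxF
      simp only [Pi.mul_apply, Pi.sub_apply, Pi.one_apply, Pi.pow_apply]
      by_cases hxE : x ∈ E
      · have hwx : w x ≠ 0 := by
          intro h
          exact hx (by rw [Finset.mem_filter, Finset.mem_filter]; exact ⟨⟨hxE, hxF⟩, h⟩)
        rw [ZMod.pow_card_sub_one_eq_one hwx]
        ring
      · rw [h0 x hxE hxF, zero_mul]

end Pool.Agent.H281A
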