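import Pool.Agent.H281A.Closure

/-!
Sets without `k`-term progressions: certificates, and supports of sums of indicator functions of
varieties.
-/

set_option autoImplicit false

namespace Pool.Agent.H281A

open Finset

variable {p : ℕ} [Fact p.Prime] {ι : Type} [Fintype ι] [DecidableEq ι]

/-- no nontrivial `k`-term progression -/
def APFree (k : ℕ) (A : Finset (ι → ZMod p)) : Prop :=
  ∀ x y : ι → ZMod p, (∀ i < k, x + i • y ∈ A) → y = 0

/-- A function of low degree which vanishes outside of a progression-free set has small support. -/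
theorem support_bound {k D : ℕ} (hk : 2 ≤ k) (hkp : k ≤ p) (A : Finset (ι → ZMod p))
    (hA : APFree k A) (R : (ι → ZMod p) → ZMod p) (hR : R ∈ L p ι D) (h0 : ∀ x, x ∉ A → R x = 0) :
    (univ.filter fun x => R x ≠ 0).card ≤ 2 * (Red p ι ((k - 2) * D / 2)).card := by
  classical
  let G : (ι ⊕ ι → ZMod p) → ZMod p := fun w =>
    ∏ i ∈ Finset.Ico 2 k, R (fun j => w (Sum.inl j) + (i : ZMod p) * (w (Sum.inr j) - w (Sum.inl j)))
  have hG : G ∈ L p (ι ⊕ ι) ((k - 2) * D) := by
    have h := L_prod (p := p) (ι := ι ⊕ ι) (Finset.Ico 2 k) (fun _ => D)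
      (fun i => fun w => R (fun j => w (Sum.inl j) + (i : ZMod p) *
        (w (Sum.inr j) - w (Sum.inl j)))) fun i _ => by
        refine L_comp hR (fun w j => w (Sum.inl j) + (i : ZMod p) *
          (w (Sum.inr j) - w (Sum.inl j))) fun j => ?_
        have h1 := L_coord (p := p) (ι := ι ⊕ ι) (Sum.inl j)
        have h2 := L_coord (p := p) (ι := ι ⊕ ι) (Sum.inr j)
        exact Submodule.add_mem _ h1 (Submodule.smul_mem _ (i : ZMod p)
          (Submodule.sub_mem _ h2 h1))
    rw [Finset.sum_const, Nat.card_Ico, smul_eq_mul] at h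
    convert h using 1
    funext w
    simp [G, Finset.prod_apply]
  have key : ∀ (x z : ι → ZMod p) (i : ℕ), (fun j => Sum.elim x z (Sum.inl j) + (i : ZMod p) *
      (Sum.elim x z (Sum.inr j) - Sum.elim x z (Sum.inl j))) = x + i • (z - x) := by
    intro x z i
    funext j
    simp [nsmul_eq_mul]
  refine rank_bound hG _ ?_ ?_
  · intro x hx
    rw [Finset.mem_filter] at hx
    simp only [G, key]
    rw [Finset.prod_ne_zero_iff]
    intro i _
    simpa using hx.2
  · intro x hx z hz hxz
    rw [Finset.mem_filter] at hx hz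
    have hxA : x ∈ A := by
      by_contra h; exact hx.2 (h0 x h)
    have hzA : z ∈ A := by
      by_contra h; exact hz.2 (h0 z h)
    simp only [G, key]
    rw [Finset.prod_eq_zero_iff]
    by_contra hcon
    push Not at hcon
    refine hxz (sub_eq_zero.1 ?_).symm
    refine hA x (z - x) fun i hi => ?_
    by_cases h2 : 2 ≤ i
    · have := hcon i (Finset.mem_Ico.2 ⟨h2, hi⟩)
      by_contra h
      exact this (h0 _ h)
    · have h3 : i = 0 ∨ i = 1 := by omega
      rcases h3 with rfl | rfl
      · simpa using hxA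
      · simpa using hzA

/-- Certificates: most elements of a progression-free set lie in the degree closure of the
complement. -/
theorem cert_bound {k D : ℕ} (hk : 2 ≤ k) (hkp : k ≤ p) (A A' : Finset (ι → ZMod p))
    (hA : APFree k A) (h : ∀ x ∈ A', ∃ R ∈ L p ι D, R x ≠ 0 ∧ ∀ y, y ∉ A → R y = 0) :
    A'.card ≤ 4 * (Red p ι ((k - 2) * D / 2)).card := by
  classical
  let W : Submodule (ZMod p) ((ι → ZMod p) → ZMod p) :=
    { carrier := {f | f ∈ L p ι D ∧ ∀ y, y ∉ A → f y = 0}
      add_mem' := fun {f g} hf hg => ⟨Submodule.add_mem _ hf.1 hg.1, fun e he => by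
        rw [Pi.add_apply, hf.2 e he, hg.2 e he, add_zero]⟩
      zero_mem' := ⟨Submodule.zero_mem _, fun _ _ => rfl⟩
      smul_mem' := fun c f hf => ⟨Submodule.smul_mem _ c hf.1, fun e he => by
        rw [Pi.smul_apply, hf.2 e he, smul_zero]⟩ }
  obtain ⟨w, hw, hwc⟩ := avg W A' fun x hx => by
    obtain ⟨R, hR, h1, h2⟩ := h x hx
    exact ⟨R, ⟨hR, h2⟩, h1⟩
  have hp := (Fact.out : p.Prime).two_le
  have h1 : 2 * (A'.filter fun x => w x = 0).card ≤ A'.card :=
    (Nat.mul_le_mul_right _ hp).trans (by convert hwc)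
  have h2 : (A'.filter fun x => w x = 0).card + (A'.filter fun x => w x ≠ 0).card =
      A'.card := Finset.card_filter_add_card_filter_not _
  have h3 : (A'.filter fun x => w x ≠ 0).card ≤ (univ.filter fun x => w x ≠ 0).card :=
    Finset.card_le_card (Finset.filter_subset_filter _ (Finset.subset_univ _))
  have h4 := support_bound hk hkp A hA w hw.1 hw.2
  omega

/-- The main inequality for the support of a sum of indicator functions of varieties. -/
theorem main_ineq {k d M : ℕ} (hk : 2 ≤ k) (hkp : k ≤ p) (t D : ℕ)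
    (F : Fin M → Set ((ι → ZMod p) → ZMod p)) (hF : ∀ i, ∀ f ∈ F i, f ∈ L p ι d)
    (c : Fin M → ZMod p) (S : Finset (ι → ZMod p)) (hS : APFree k S)
    (h : ∀ x, x ∈ S ↔ ∑ i, (open Classical in if ∀ f ∈ F i, f x = 0 then c i else 0) ≠ 0) :
    ∃ z E : ℕ, z * (Red p ι D).card ≤ p ^ Fintype.card ι * E ∧
      p ^ t * E ≤ M * p ^ Fintype.card ι ∧
      S.card ≤ z + 4 * (Red p ι ((k - 2) * ((p - 1) * d * t + D) / 2)).card := by
  classical
  choose P hP E hE h1 h0 using fun i => approx_variety (F i) (hF i) t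
  let E' : Finset (ι → ZMod p) := univ.biUnion E
  obtain ⟨Q, hQ, hQE, z, hz, hzS⟩ := exists_vanish D E' S
  refine ⟨z, E'.card, hz, ?_, ?_⟩
  · calc p ^ t * E'.card ≤ p ^ t * ∑ i, (E i).card :=
          Nat.mul_le_mul_left _ Finset.card_biUnion_le
      _ = ∑ i, p ^ t * (E i).card := Finset.mul_sum _ _ _
      _ ≤ ∑ _i : Fin M, p ^ Fintype.card ι := Finset.sum_le_sum fun i _ => hE i
      _ = M * p ^ Fintype.card ι := by simp
  · let P' : (ι → ZMod p) → ZMod p := ∑ i, c i • P i
    have hP' : P' ∈ L p ι ((p - 1) * d * t) :=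
      Submodule.sum_mem _ fun i _ => Submodule.smul_mem _ _ (hP i)
    have hPx : ∀ x, x ∉ E' → P' x = ∑ i, (if ∀ f ∈ F i, f x = 0 then c i else 0) := by
      intro x hx
      simp only [P', Finset.sum_apply, Pi.smul_apply, smul_eq_mul]
      refine Finset.sum_congr rfl fun i _ => ?_
      split_ifs with hxi
      · rw [h1 i x hxi, mul_one]
      · rw [h0 i x (fun hxE => hx (Finset.mem_biUnion.2 ⟨i, mem_univ _, hxE⟩)) hxi, mul_zero]
    have hR : P' * Q ∈ L p ι ((p - 1) * d * t + D) := L_mul hP' hQ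
    have hR0 : ∀ x, x ∉ S → (P' * Q) x = 0 := by
      intro x hx
      rw [Pi.mul_apply]
      by_cases hxE : x ∈ E'
      · rw [hQE x hxE, mul_zero]
      · rw [hPx x hxE]
        rw [h x] at hx
        push Not at hx
        rw [hx, zero_mul]
    have h2 := support_bound hk hkp S hS _ hR hR0
    have h3 : (S.filter fun y => Q y ≠ 0).card ≤ (univ.filter fun x => (P' * Q) x ≠ 0).card := by
      refine Finset.card_le_card fun x hx => ?_
      rw [Finset.mem_filter] at hx ⊢
      refine ⟨mem_univ _, ?_⟩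
      rw [Pi.mul_apply]
      refine mul_ne_zero ?_ hx.2
      rw [hPx x fun hxE => hx.2 (hQE x hxE)]
      exact (h x).1 hx.1
    omega

end Pool.Agent.H281A
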