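import Pool.Agent.H281A.Poly

/-!
The number of reduced monomials of small degree: the Chernoff bound.
-/

set_option autoImplicit false

namespace Pool.Agent.H281A

open Finset

variable {p : ℕ} [Fact p.Prime] {ι : Type} [Fintype ι] [DecidableEq ι]

omit [DecidableEq ι] [Fintype ι] in
lemma one_coord (l : ℝ) : ∑ a : Fin p, Real.exp (l * (((p : ℝ) - 1) / 2 - (a : ℕ))) ≤
    p * Real.exp (l ^ 2 * ((p : ℝ) - 1) ^ 2 / 8) := by
  have hp := (Fact.out : p.Prime).two_le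
  have hrev : ∑ a : Fin p, Real.exp (l * (((p : ℝ) - 1) / 2 - (a : ℕ))) =
      ∑ a : Fin p, Real.exp (-(l * (((p : ℝ) - 1) / 2 - (a : ℕ)))) := by
    rw [← Equiv.sum_comp Fin.revPerm]
    refine Finset.sum_congr rfl fun a _ => ?_
    congr 1
    rw [Fin.revPerm_apply, Fin.val_rev]
    have h := a.2
    rw [Nat.cast_sub (by omega)]
    push_cast
    ring
  have h2 : ∑ a : Fin p, Real.exp (l * (((p : ℝ) - 1) / 2 - (a : ℕ))) =
      ∑ a : Fin p, Real.cosh (l * (((p : ℝ) - 1) / 2 - (a : ℕ))) := by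
    have h3 : ∀ a : Fin p, Real.cosh (l * (((p : ℝ) - 1) / 2 - (a : ℕ))) =
        (Real.exp (l * (((p : ℝ) - 1) / 2 - (a : ℕ))) +
          Real.exp (-(l * (((p : ℝ) - 1) / 2 - (a : ℕ))))) / 2 := fun a => Real.cosh_eq _
    rw [Finset.sum_congr rfl fun a _ => h3 a, ← Finset.sum_div, Finset.sum_add_distrib, ← hrev]
    ring
  rw [h2]
  have h4 : ∀ a ∈ (univ : Finset (Fin p)), Real.cosh (l * (((p : ℝ) - 1) / 2 - (a : ℕ))) ≤
      Real.exp (l ^ 2 * ((p : ℝ) - 1) ^ 2 / 8) := by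
    intro a _
    refine (Real.cosh_le_exp_half_sq _).trans (Real.exp_le_exp.2 ?_)
    have h5 : ((((p : ℝ) - 1) / 2 - (a : ℕ))) ^ 2 ≤ (((p : ℝ) - 1) / 2) ^ 2 := by
      rw [sq_le_sq]
      have h6 : ((a : ℕ) : ℝ) ≤ p - 1 := by
        have : (a : ℕ) + 1 ≤ p := a.2
        have : ((a : ℕ) : ℝ) + 1 ≤ p := by exact_mod_cast this
        linarith
      have h7 : (0 : ℝ) ≤ ((a : ℕ) : ℝ) := Nat.cast_nonneg _
      rw [abs_le, abs_of_nonneg (by linarith)]
      constructor <;> linarith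
    have h8 := mul_le_mul_of_nonneg_left h5 (sq_nonneg l)
    nlinarith [h8]
  refine (Finset.sum_le_sum h4).trans ?_
  rw [Finset.sum_const, Finset.card_univ, Fintype.card_fin, nsmul_eq_mul]

/-- Hoeffding's bound. -/
theorem card_Red_le (D : ℕ) (δ : ℝ) (hδ : 0 ≤ δ)
    (hD : (D : ℝ) ≤ (1 - δ) * ((p : ℝ) - 1) * Fintype.card ι / 2) :
    ((Red p ι D).card : ℝ) ≤ (p : ℝ) ^ Fintype.card ι *
      Real.exp (-(δ ^ 2 * Fintype.card ι / 2)) := by
  have hp := (Fact.out : p.Prime).two_le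
  have hp' : (2 : ℝ) ≤ p := by exact_mod_cast hp
  set n : ℝ := (Fintype.card ι : ℝ) with hn
  set l : ℝ := 2 * δ / (p - 1) with hl
  have hl0 : 0 ≤ l := div_nonneg (by linarith) (by linarith)
  have h1 : ((Red p ι D).card : ℝ) * Real.exp (l * (δ * ((p : ℝ) - 1) * n / 2)) ≤
      ∑ e : ι → Fin p, Real.exp (∑ i, l * (((p : ℝ) - 1) / 2 - (e i : ℕ))) := by
    calc _ = ∑ _e ∈ Red p ι D, Real.exp (l * (δ * ((p : ℝ) - 1) * n / 2)) := by
          rw [Finset.sum_const, nsmul_eq_mul]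
      _ ≤ ∑ e ∈ Red p ι D, Real.exp (∑ i, l * (((p : ℝ) - 1) / 2 - (e i : ℕ))) := by
          refine Finset.sum_le_sum fun e he => Real.exp_le_exp.2 ?_
          rw [← Finset.mul_sum]
          refine mul_le_mul_of_nonneg_left ?_ hl0
          rw [Finset.sum_sub_distrib, Finset.sum_const, Finset.card_univ, nsmul_eq_mul, ← hn]
          have h2 : ((∑ i, (e i : ℕ) : ℕ) : ℝ) ≤ D := by exact_mod_cast mem_Red.1 he
          push_cast at h2
          nlinarith [h2, hD]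
      _ ≤ _ := Finset.sum_le_sum_of_subset_of_nonneg (Finset.subset_univ _)
          fun _ _ _ => (Real.exp_pos _).le
  have h2 : ∑ e : ι → Fin p, Real.exp (∑ i, l * (((p : ℝ) - 1) / 2 - (e i : ℕ))) =
      ∏ _i : ι, ∑ a : Fin p, Real.exp (l * (((p : ℝ) - 1) / 2 - (a : ℕ))) := by
    rw [Finset.prod_univ_sum]
    rw [Fintype.piFinset_univ]
    refine Finset.sum_congr rfl fun e _ => ?_
    rw [Real.exp_sum]
  have h3 : ∏ _i : ι, ∑ a : Fin p, Real.exp (l * (((p : ℝ) - 1) / 2 - (a : ℕ))) ≤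
      (p * Real.exp (l ^ 2 * ((p : ℝ) - 1) ^ 2 / 8)) ^ Fintype.card ι := by
    rw [Finset.prod_const, Finset.card_univ]
    exact pow_le_pow_left₀ (Finset.sum_nonneg fun _ _ => (Real.exp_pos _).le) (one_coord l) _
  rw [h2] at h1
  have h4 := h1.trans h3
  rw [mul_pow, ← Real.exp_nat_mul, ← hn] at h4
  have hpos : 0 < Real.exp (l * (δ * ((p : ℝ) - 1) * n / 2)) := Real.exp_pos _
  rw [← le_div_iff₀ hpos, mul_div_assoc, ← Real.exp_sub] at h4
  refine h4.trans (le_of_eq ?_)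
  congr 2
  have hne : (p : ℝ) - 1 ≠ 0 := by linarith
  rw [hl]
  field_simp
  ring

end Pool.Agent.H281A
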