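import Pool.Agent.H281A.Poly

/-!
A lower bound for the number of words with small digit sum, by the fourth moment method.
-/

set_option autoImplicit false

namespace Pool.Agent.H281A

open Finset

section moments

variable {α : Type} [Fintype α] (c : α → ℤ)

/-- the sum of a word -/
def Sm {B : ℕ} (f : Fin B → α) : ℤ := ∑ i, c (f i)

lemma sum_cons {B : ℕ} (F : (Fin (B + 1) → α) → ℤ) :
    ∑ f, F f = ∑ a : α, ∑ f : Fin B → α, F (Fin.cons a f) := by
  rw [← (Fin.consEquiv fun _ : Fin (B + 1) => α).sum_comp, Fintype.sum_prod_type]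
  rfl

omit [Fintype α] in
lemma Sm_cons {B : ℕ} (a : α) (f : Fin B → α) : Sm c (Fin.cons a f : Fin (B + 1) → α) =
    c a + Sm c f := by
  unfold Sm
  rw [Fin.sum_univ_succ]
  simp

/-- the moments -/
def Mo (B k : ℕ) : ℤ := ∑ f : Fin B → α, Sm c f ^ k

variable {c}

lemma Mo_zero (B : ℕ) : Mo c B 0 = (Fintype.card α : ℤ) ^ B := by
  simp [Mo]

lemma Mo_one (h1 : ∑ a, c a = 0) (B : ℕ) : Mo c B 1 = 0 := by
  induction B with
  | zero => simp [Mo, Sm]
  | succ B ih =>
    unfold Mo at ih ⊢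
    rw [sum_cons]
    simp only [Sm_cons, pow_one] at ih ⊢
    calc ∑ a : α, ∑ f : Fin B → α, (c a + Sm c f) =
        ∑ a : α, (∑ _f : Fin B → α, c a + ∑ f : Fin B → α, Sm c f) := by
          refine Finset.sum_congr rfl fun a _ => Finset.sum_add_distrib
      _ = 0 := by
        rw [ih]
        simp only [Finset.sum_const, add_zero, nsmul_eq_mul, ← Finset.mul_sum, h1, mul_zero]

lemma Mo_two (h1 : ∑ a, c a = 0) (B : ℕ) :
    (Fintype.card α : ℤ) * Mo c B 2 = B * (∑ a, c a ^ 2) * (Fintype.card α : ℤ) ^ B := by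
  induction B with
  | zero => simp [Mo, Sm]
  | succ B ih =>
    have h0 := Mo_zero (c := c) B
    have hm1 := Mo_one h1 B
    have e : Mo c (B + 1) 2 = (Fintype.card α : ℤ) * Mo c B 2 +
        (∑ a, c a ^ 2) * Mo c B 0 := by
      unfold Mo at *
      rw [sum_cons]
      simp only [Sm_cons]
      calc ∑ a : α, ∑ f : Fin B → α, (c a + Sm c f) ^ 2 =
          ∑ a : α, (∑ f : Fin B → α, c a ^ 2 * Sm c f ^ 0 +
            2 * c a * ∑ f : Fin B → α, Sm c f ^ 1 + ∑ f : Fin B → α, Sm c f ^ 2) := by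
            refine Finset.sum_congr rfl fun a _ => ?_
            rw [Finset.mul_sum, ← Finset.sum_add_distrib, ← Finset.sum_add_distrib]
            refine Finset.sum_congr rfl fun f _ => by ring
        _ = _ := by
          rw [hm1]
          simp only [mul_zero, add_zero, Finset.sum_add_distrib, ← Finset.mul_sum,
            Finset.sum_const, Finset.card_univ, nsmul_eq_mul, ← Finset.sum_mul]
          ring
    rw [e, h0, mul_add, mul_left_comm, ih]
    push_cast
    ring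

lemma Mo_three (h1 : ∑ a, c a = 0) (h3 : ∑ a, c a ^ 3 = 0) (B : ℕ) : Mo c B 3 = 0 := by
  induction B with
  | zero => simp [Mo, Sm]
  | succ B ih =>
    have hm1 := Mo_one h1 B
    unfold Mo at *
    rw [sum_cons]
    simp only [Sm_cons]
    calc ∑ a : α, ∑ f : Fin B → α, (c a + Sm c f) ^ 3 =
        ∑ a : α, (c a ^ 3 * ∑ _f : Fin B → α, 1 + 3 * c a ^ 2 * ∑ f : Fin B → α, Sm c f ^ 1 +
          c a * (3 * ∑ f : Fin B → α, Sm c f ^ 2) + ∑ f : Fin B → α, Sm c f ^ 3) := by
          refine Finset.sum_congr rfl fun a _ => ?_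
          simp only [Finset.mul_sum, ← Finset.sum_add_distrib]
          refine Finset.sum_congr rfl fun f _ => by ring
      _ = 0 := by
        rw [hm1, ih]
        simp only [mul_zero, add_zero, Finset.sum_add_distrib, ← Finset.sum_mul, h1, h3, zero_mul]

lemma Mo_four (h1 : ∑ a, c a = 0) (h3 : ∑ a, c a ^ 3 = 0) (B : ℕ) :
    (Fintype.card α : ℤ) ^ 2 * Mo c B 4 ≤ (3 * (∑ a, c a ^ 2) ^ 2 * B ^ 2 +
      (∑ a, c a ^ 4) * Fintype.card α * B) * (Fintype.card α : ℤ) ^ B := by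
  induction B with
  | zero => simp [Mo, Sm]
  | succ B ih =>
    have h0 := Mo_zero (c := c) B
    have hm1 := Mo_one h1 B
    have hm3 := Mo_three h1 h3 B
    have h2 := Mo_two h1 B
    set N : ℤ := (Fintype.card α : ℤ) with hN
    set V := ∑ a, c a ^ 2 with hV
    set W := ∑ a, c a ^ 4 with hW
    have e : Mo c (B + 1) 4 = N * Mo c B 4 + 6 * V * Mo c B 2 + W * Mo c B 0 := by
      unfold Mo at *
      rw [sum_cons]
      simp only [Sm_cons]
      calc ∑ a : α, ∑ f : Fin B → α, (c a + Sm c f) ^ 4 =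
          ∑ a : α, (c a ^ 4 * ∑ f : Fin B → α, Sm c f ^ 0 +
            4 * c a ^ 3 * ∑ f : Fin B → α, Sm c f ^ 1 +
            c a ^ 2 * (6 * ∑ f : Fin B → α, Sm c f ^ 2) +
            4 * c a * ∑ f : Fin B → α, Sm c f ^ 3 + ∑ f : Fin B → α, Sm c f ^ 4) := by
            refine Finset.sum_congr rfl fun a _ => ?_
            simp only [Finset.mul_sum, ← Finset.sum_add_distrib]
            refine Finset.sum_congr rfl fun f _ => by ring
        _ = _ := by
          rw [hm1, hm3]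
          simp only [mul_zero, add_zero, Finset.sum_add_distrib, ← Finset.sum_mul,
            Finset.sum_const, Finset.card_univ, nsmul_eq_mul]
          rw [← hV, ← hW, ← hN]
          ring
    have hN0 : 0 ≤ N := by rw [hN]; positivity
    have hW0 : 0 ≤ W := Finset.sum_nonneg fun a _ => by positivity
    have hNB : 0 ≤ N ^ B := pow_nonneg hN0 B
    have e2 : N ^ 2 * Mo c (B + 1) 4 = N * (N ^ 2 * Mo c B 4) + 6 * V * N * (N * Mo c B 2) +
        W * N ^ 2 * N ^ B := by rw [e, h0]; ring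
    rw [e2, h2]
    have h4 := mul_le_mul_of_nonneg_left ih hN0
    push_cast
    have h5 : 0 ≤ V ^ 2 * (N * N ^ B) := by positivity
    have e3 : N ^ (B + 1) = N * N ^ B := by ring
    rw [e3]
    nlinarith [h4, h5]

/-- Anticoncentration. -/
theorem anticonc (h1 : ∑ a, c a = 0) (h3 : ∑ a, c a ^ 3 = 0) (B s K : ℕ)
    (hV : (Fintype.card α : ℤ) ≤ ∑ a, c a ^ 2) (hN : 1 ≤ Fintype.card α)
    (hW : ∑ a, c a ^ 4 ≤ K * ∑ a, c a ^ 2) (hs : 2 * s ^ 2 ≤ B) (hK : K ≤ B) (hB : 1 ≤ B) :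
    Fintype.card α ^ B ≤ 16 * (univ.filter fun f : Fin B → α => (s : ℤ) ≤ |Sm c f|).card := by
  classical
  have hm0 := Mo_zero (c := c) B
  have hm2 := Mo_two h1 B
  have hm4 := Mo_four h1 h3 B
  set N : ℤ := (Fintype.card α : ℤ) with hNdef
  set V := ∑ a, c a ^ 2 with hVdef
  set W := ∑ a, c a ^ 4 with hWdef
  set X := univ.filter fun f : Fin B → α => (s : ℤ) ≤ |Sm c f| with hX
  have hN1 : 1 ≤ N := by rw [hNdef]; exact_mod_cast hN
  have hNB : 0 < N ^ B := by positivity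
  have hB1 : (1 : ℤ) ≤ B := by exact_mod_cast hB
  have hs' : 2 * (s : ℤ) ^ 2 ≤ B := by exact_mod_cast hs
  have hK' : (K : ℤ) ≤ B := by exact_mod_cast hK
  have hV0 : 0 < V := by linarith
  -- split the second moment
  have hsplit : Mo c B 2 ≤ (s : ℤ) ^ 2 * N ^ B + ∑ f ∈ X, Sm c f ^ 2 := by
    unfold Mo
    rw [← Finset.sum_filter_add_sum_filter_not univ fun f : Fin B → α => (s : ℤ) ≤ |Sm c f|]
    rw [add_comm]
    refine add_le_add ?_ le_rfl
    calc ∑ f ∈ univ.filter (fun f : Fin B → α => ¬ (s : ℤ) ≤ |Sm c f|), Sm c f ^ 2 ≤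
        ∑ f ∈ univ.filter (fun f : Fin B → α => ¬ (s : ℤ) ≤ |Sm c f|), (s : ℤ) ^ 2 := by
          refine Finset.sum_le_sum fun f hf => ?_
          rw [Finset.mem_filter] at hf
          have h := hf.2
          push Not at h
          rw [sq_le_sq, Nat.abs_cast]
          exact h.le
      _ ≤ ∑ f : Fin B → α, (s : ℤ) ^ 2 :=
          Finset.sum_le_sum_of_subset_of_nonneg (Finset.subset_univ _) fun _ _ _ => by positivity
      _ = (s : ℤ) ^ 2 * N ^ B := by
          rw [Finset.sum_const, Finset.card_univ, Fintype.card_fun, Fintype.card_fin, nsmul_eq_mul]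
          push_cast
          ring
  -- Cauchy-Schwarz
  have hCS : (∑ f ∈ X, Sm c f ^ 2) ^ 2 ≤ X.card * Mo c B 4 := by
    have h := Finset.sum_mul_sq_le_sq_mul_sq X (fun _ => (1 : ℤ)) fun f => Sm c f ^ 2
    simp only [one_mul, one_pow, Finset.sum_const, nsmul_eq_mul, mul_one] at h
    refine h.trans (mul_le_mul_of_nonneg_left ?_ (by positivity))
    unfold Mo
    calc ∑ f ∈ X, (Sm c f ^ 2) ^ 2 = ∑ f ∈ X, Sm c f ^ 4 :=
          Finset.sum_congr rfl fun f _ => by ring
      _ ≤ ∑ f, Sm c f ^ 4 := Finset.sum_le_sum_of_subset_of_nonneg (Finset.subset_univ _)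
          fun f _ _ => by positivity
  -- lower bound for the second moment
  have hM2 : (B : ℤ) * N ^ B ≤ Mo c B 2 := by
    have h : N * (B * N ^ B) ≤ N * Mo c B 2 := by
      rw [hm2]
      nlinarith [mul_le_mul_of_nonneg_left hV (mul_nonneg (by linarith : (0 : ℤ) ≤ B) hNB.le)]
    exact le_of_mul_le_mul_left h (by linarith)
  have hhalf : Mo c B 2 ≤ 2 * ∑ f ∈ X, Sm c f ^ 2 := by
    nlinarith [mul_le_mul_of_nonneg_right hs' hNB.le]
  have hM20 : 0 ≤ Mo c B 2 := le_trans (by positivity) hM2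
  have hsq : Mo c B 2 ^ 2 ≤ 4 * (X.card * Mo c B 4) := by
    calc Mo c B 2 ^ 2 ≤ (2 * ∑ f ∈ X, Sm c f ^ 2) ^ 2 := pow_le_pow_left₀ hM20 hhalf 2
      _ = 4 * (∑ f ∈ X, Sm c f ^ 2) ^ 2 := by ring
      _ ≤ _ := mul_le_mul_of_nonneg_left hCS (by norm_num)
  -- combine
  have hfin : (B * V * N ^ B) ^ 2 ≤ 4 * X.card * ((3 * V ^ 2 * B ^ 2 + W * N * B) * N ^ B) := by
    rw [← hm2, mul_pow]
    calc N ^ 2 * Mo c B 2 ^ 2 ≤ N ^ 2 * (4 * (X.card * Mo c B 4)) :=
          mul_le_mul_of_nonneg_left hsq (by positivity)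
      _ = 4 * X.card * (N ^ 2 * Mo c B 4) := by ring
      _ ≤ _ := mul_le_mul_of_nonneg_left hm4 (by positivity)
  have hWb : W * N * B ≤ V ^ 2 * B ^ 2 := by
    calc W * N * B ≤ (K * V) * V * B := by
          have h1 : W * N ≤ (K * V) * V := mul_le_mul hW hV (by linarith) (by positivity)
          exact mul_le_mul_of_nonneg_right h1 (by linarith)
      _ = K * (V ^ 2 * B) := by ring
      _ ≤ B * (V ^ 2 * B) := mul_le_mul_of_nonneg_right hK' (by positivity)
      _ = _ := by ring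
  have hfin2 : (B * V) ^ 2 * N ^ B * N ^ B ≤ (B * V) ^ 2 * N ^ B * (16 * X.card) := by
    calc (B * V) ^ 2 * N ^ B * N ^ B = (B * V * N ^ B) ^ 2 := by ring
      _ ≤ _ := hfin
      _ ≤ 4 * X.card * ((4 * (V ^ 2 * B ^ 2)) * N ^ B) := by
          refine mul_le_mul_of_nonneg_left (mul_le_mul_of_nonneg_right ?_ hNB.le) (by positivity)
          linarith
      _ = _ := by ring
  have hfin3 := le_of_mul_le_mul_left hfin2 (by positivity)
  have : ((Fintype.card α ^ B : ℕ) : ℤ) ≤ ((16 * X.card : ℕ) : ℤ) := by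
    push_cast
    exact hfin3
  exact_mod_cast this

end moments

end Pool.Agent.H281A
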