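import Pool.Agent.H281A.Core
import Pool.Agent.H281A.Block
import Pool.Agent.H281A.Hoeff

/-!
Numerical conclusions for the supports of sums of indicator functions of varieties.
-/

set_option autoImplicit false

namespace Pool.Agent.H281A

open Finset

variable {p : ℕ} [Fact p.Prime]

/-- the support of a combination of indicator functions of `M` varieties of degree `d` -/
def Supp {n : ℕ} (d M : ℕ) (S : Finset (Fin n → ZMod p)) : Prop :=
  ∃ (F : Fin M → Set ((Fin n → ZMod p) → ZMod p)) (c : Fin M → ZMod p),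
    (∀ i, ∀ f ∈ F i, f ∈ L p (Fin n) d) ∧
    ∀ x, x ∈ S ↔ ∑ i, (open Classical in if ∀ f ∈ F i, f x = 0 then c i else 0) ≠ 0

lemma card_le_all {n : ℕ} (S : Finset (Fin n → ZMod p)) : (S.card : ℝ) ≤ (p : ℝ) ^ (n : ℝ) := by
  have h := Finset.card_le_univ S
  rw [Fintype.card_fun, ZMod.card, Fintype.card_fin] at h
  rw [Real.rpow_natCast]
  exact_mod_cast h

/-- final estimate from the two summands -/
lemma combine {p n : ℕ} (hp : 2 ≤ p) (c a e M z m2 : ℝ) (hz : z * (p : ℝ) ^ a ≤ M * (p : ℝ) ^ (n : ℝ))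
    (hM : M ≤ (p : ℝ) ^ (c * n)) (ha : 3 * c * n - 1 ≤ a)
    (hm2 : m2 ≤ (p : ℝ) ^ (n : ℝ) * Real.exp (-e)) (he : 2 * c * n * Real.log p ≤ e) :
    z + 4 * m2 ≤ ((p : ℝ) + 4) * (p : ℝ) ^ ((1 - 2 * c) * n) := by
  have hp' : (2 : ℝ) ≤ p := by exact_mod_cast hp
  have hp0 : (0 : ℝ) < p := by linarith
  have h1 : z ≤ p * (p : ℝ) ^ ((1 - 2 * c) * n) := by
    have h2 : z * (p : ℝ) ^ a ≤ (p : ℝ) ^ (c * n) * (p : ℝ) ^ (n : ℝ) :=
      hz.trans (mul_le_mul_of_nonneg_right hM (Real.rpow_nonneg hp0.le _))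
    rw [← le_div_iff₀ (Real.rpow_pos_of_pos hp0 _), ← Real.rpow_add hp0,
      ← Real.rpow_sub hp0] at h2
    refine h2.trans ?_
    calc (p : ℝ) ^ (c * n + n - a) ≤ (p : ℝ) ^ (1 + (1 - 2 * c) * n) :=
          Real.rpow_le_rpow_of_exponent_le (by linarith) (by nlinarith)
      _ = p * (p : ℝ) ^ ((1 - 2 * c) * n) := by rw [Real.rpow_add hp0, Real.rpow_one]
  have h3 : m2 ≤ (p : ℝ) ^ ((1 - 2 * c) * n) := by
    refine hm2.trans ?_
    have h4 : Real.exp (-e) ≤ (p : ℝ) ^ (-(2 * c * n)) := by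
      rw [Real.rpow_def_of_pos hp0]
      refine Real.exp_le_exp.2 ?_
      nlinarith
    calc (p : ℝ) ^ (n : ℝ) * Real.exp (-e) ≤ (p : ℝ) ^ (n : ℝ) * (p : ℝ) ^ (-(2 * c * n)) :=
          mul_le_mul_of_nonneg_left h4 (Real.rpow_nonneg hp0.le _)
      _ = (p : ℝ) ^ ((1 - 2 * c) * n) := by
          rw [← Real.rpow_add hp0]; congr 1; ring
  linarith

/-- The bound for sets without four-term progressions. -/
theorem bound4 (hp5 : 5 ≤ p) (d : ℕ) : ∃ c C : ℝ, 0 < c ∧ c ≤ 1 ∧ ∀ (n M : ℕ)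
    (S : Finset (Fin n → ZMod p)), APFree 4 S → Supp d M S → (M : ℝ) ≤ (p : ℝ) ^ (c * n) →
    (S.card : ℝ) ≤ C * (p : ℝ) ^ ((1 - 2 * c) * n) := by
  have hp' : (5 : ℝ) ≤ p := by exact_mod_cast hp5
  have hp0 : (0 : ℝ) < p := by linarith
  obtain ⟨B, u, hB, hu, hcard⟩ := exists_block (p := p) ((p - 1) * (8 * d + 2))
    (Nat.mul_pos (by omega) (by omega))
  have hBr : (1 : ℝ) ≤ B := by exact_mod_cast hB
  have hB0 : (0 : ℝ) < B := by linarith
  have hlog : 1 ≤ Real.log p := by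
    rw [Real.le_log_iff_exp_le hp0]
    have := Real.exp_one_lt_d9
    linarith
  set c : ℝ := 1 / (4 * B ^ 2 * Real.log p) with hc
  have hden : 0 < 4 * (B : ℝ) ^ 2 * Real.log p := by positivity
  have hc0 : 0 < c := by positivity
  have hc3 : 3 * c ≤ 1 / B := by
    rw [hc, mul_one_div, div_le_div_iff₀ hden hB0]
    nlinarith [mul_le_mul_of_nonneg_left hBr hB0.le,
      mul_le_mul_of_nonneg_left hlog (by positivity : (0 : ℝ) ≤ 4 * B ^ 2)]
  have hc1 : c ≤ 1 := by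
    have : 1 / (B : ℝ) ≤ 1 := by rw [div_le_one hB0]; exact hBr
    linarith
  refine ⟨c, (p + 4) + (p : ℝ) ^ (2 * (B * (B + 2) : ℝ)), hc0, hc1, ?_⟩
  intro n M S hS hSupp hM
  have hpos : (0 : ℝ) ≤ (p : ℝ) ^ ((1 - 2 * c) * n) := Real.rpow_nonneg hp0.le _
  by_cases hn : (n : ℝ) < B * (B + 2)
  · have h1 := card_le_all S
    calc (S.card : ℝ) ≤ (p : ℝ) ^ (n : ℝ) := h1
      _ = (p : ℝ) ^ (2 * c * n) * (p : ℝ) ^ ((1 - 2 * c) * n) := by
          rw [← Real.rpow_add hp0]; congr 1; ring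
      _ ≤ (p : ℝ) ^ (2 * (B * (B + 2) : ℝ)) * (p : ℝ) ^ ((1 - 2 * c) * n) := by
          refine mul_le_mul_of_nonneg_right (Real.rpow_le_rpow_of_exponent_le (by linarith) ?_) hpos
          have h0 : (0 : ℝ) ≤ n := Nat.cast_nonneg _
          nlinarith
      _ ≤ _ := mul_le_mul_of_nonneg_right (by linarith) hpos
  · push Not at hn
    obtain ⟨F, co, hF, hx⟩ := hSupp
    set q := n / B with hq
    set r := n % B with hr
    obtain ⟨z, E, hz, hE, hcS⟩ := main_ineq (d := d) (by norm_num : 2 ≤ 4) (by omega) (4 * q)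
      (q * u + (p - 1) * r) F hF co S hS hx
    rw [Fintype.card_fin] at hz hE
    have hlow := lower_blocks hcard n
    rw [← hq, ← hr] at hlow
    set m := (Red p (Fin n) (q * u + (p - 1) * r)).card with hm
    have hm0 : 0 < m := by
      rcases Nat.eq_zero_or_pos m with h | h
      · rw [h, mul_zero] at hlow
        have : 0 < p ^ n := by positivity
        omega
      · exact h
    have hz1 : z ≤ 32 ^ q * E := by
      refine Nat.le_of_mul_le_mul_right (?_ : z * m ≤ 32 ^ q * E * m) hm0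
      calc z * m ≤ p ^ n * E := hz
        _ ≤ 32 ^ q * m * E := Nat.mul_le_mul_right _ hlow
        _ = _ := by ring
    have hz2 : z * p ^ q ≤ M * p ^ n := by
      have h32 : 32 ^ q ≤ p ^ (3 * q) := by
        rw [pow_mul]
        refine Nat.pow_le_pow_left ?_ _
        calc 32 ≤ 5 ^ 3 := by norm_num
          _ ≤ p ^ 3 := Nat.pow_le_pow_left hp5 3
      refine Nat.le_of_mul_le_mul_left (?_ : p ^ (3 * q) * (z * p ^ q) ≤
        p ^ (3 * q) * (M * p ^ n)) (by positivity)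
      calc p ^ (3 * q) * (z * p ^ q) = p ^ (4 * q) * z := by
            rw [show 4 * q = 3 * q + q by ring, pow_add]; ring
        _ ≤ p ^ (4 * q) * (32 ^ q * E) := Nat.mul_le_mul_left _ hz1
        _ = 32 ^ q * (p ^ (4 * q) * E) := by ring
        _ ≤ 32 ^ q * (M * p ^ n) := Nat.mul_le_mul_left _ hE
        _ ≤ _ := Nat.mul_le_mul_right _ h32
    -- the degree
    have hqr : (B : ℝ) * q + r = n := by
      rw [hq, hr]; exact_mod_cast Nat.div_add_mod n B
    have hrB : (r : ℝ) < B := by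
      have : r < B := Nat.mod_lt _ (by omega)
      exact_mod_cast this
    have hr0 : (0 : ℝ) ≤ r := Nat.cast_nonneg _
    have hnB : (n : ℝ) / B + (r - 2 * q) ≤ 0 := by
      have e1 : (q : ℝ) = (n - r) / B := by field_simp; linarith
      have e2 : (n : ℝ) / B ≥ B + 2 := by
        rw [ge_iff_le, le_div_iff₀ hB0]; linarith
      have e3 : (r : ℝ) / B ≤ 1 := by rw [div_le_one hB0]; exact hrB.le
      rw [e1, sub_div]
      linarith
    have hpm : ((p - 1 : ℕ) : ℝ) = p - 1 := by rw [Nat.cast_sub (by omega)]; simp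
    have hu' : 2 * (u : ℝ) + (p - 1) * (8 * d + 2) ≤ (p - 1) * B := by
      rw [← hpm]; exact_mod_cast hu
    have hq0 : (0 : ℝ) ≤ q := Nat.cast_nonneg _
    have hD : ((((4 - 2) * ((p - 1) * d * (4 * q) + (q * u + (p - 1) * r)) / 2 : ℕ)) : ℝ) ≤
        (1 - 1 / B) * ((p : ℝ) - 1) * Fintype.card (Fin n) / 2 := by
      have e0 : (4 - 2) * ((p - 1) * d * (4 * q) + (q * u + (p - 1) * r)) / 2 =
          (p - 1) * d * (4 * q) + (q * u + (p - 1) * r) := by omega
      rw [e0, Fintype.card_fin]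
      push_cast
      rw [hpm]
      have e1 : q * (2 * (u : ℝ) + (p - 1) * (8 * d + 2)) ≤ q * ((p - 1) * B) :=
        mul_le_mul_of_nonneg_left hu' hq0
      have e2 : ((p : ℝ) - 1) * (n / B + (r - 2 * q)) ≤ 0 :=
        mul_nonpos_of_nonneg_of_nonpos (by linarith) hnB
      have e3 : ((p : ℝ) - 1) * n = (p - 1) * (B * q + r) := by rw [hqr]
      have e4 : (1 - 1 / (B : ℝ)) * ((p : ℝ) - 1) * n / 2 =
          (((p : ℝ) - 1) * n - (p - 1) * (n / B)) / 2 := by ring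
      rw [e4, e3]
      nlinarith [e1, e2]
    have hm2 := card_Red_le (p := p) (ι := Fin n) _ (1 / (B : ℝ)) (by positivity) hD
    rw [Fintype.card_fin] at hm2
    have hfin := combine (p := p) (n := n) (by omega) c q ((1 / (B : ℝ)) ^ 2 * n / 2) M z
      ((Red p (Fin n) ((4 - 2) * ((p - 1) * d * (4 * q) +
        (q * u + (p - 1) * r)) / 2)).card : ℝ)
      (by rw [Real.rpow_natCast, Real.rpow_natCast]; exact_mod_cast hz2) hM ?_
      (by rw [Real.rpow_natCast]; exact hm2) ?_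
    · have h5 : (S.card : ℝ) ≤ z + 4 * ((Red p (Fin n) ((4 - 2) * ((p - 1) * d * (4 * q) +
        (q * u + (p - 1) * r)) / 2)).card : ℝ) := by exact_mod_cast hcS
      refine h5.trans (hfin.trans ?_)
      refine mul_le_mul_of_nonneg_right ?_ hpos
      have := Real.rpow_nonneg hp0.le (2 * (B * (B + 2) : ℝ))
      linarith
    · -- 3 c n - 1 ≤ q
      have h6 : 3 * c * n ≤ n / B := by
        calc 3 * c * n ≤ 1 / B * n := mul_le_mul_of_nonneg_right hc3 (Nat.cast_nonneg _)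
          _ = n / B := by ring
      have h7 : (n : ℝ) / B ≤ q + 1 := by
        rw [div_le_iff₀ hB0]; nlinarith
      linarith
    · rw [hc]
      have : Real.log p ≠ 0 := by linarith
      rw [show 2 * (1 / (4 * (B : ℝ) ^ 2 * Real.log p)) * n * Real.log p =
        (1 / (B : ℝ)) ^ 2 * n / 2 by field_simp; norm_num]

/-- The bound for sets without `k`-term progressions and large primes. -/
theorem boundk {k d : ℕ} (hk : 4 ≤ k) (hkp : k ≤ p) (hd : 1 ≤ d)
    (hp : (k - 1) ^ (4 * d * (k - 1) * (k - 2)) ≤ p) : ∃ c C : ℝ, 0 < c ∧ c ≤ 1 ∧ ∀ (n M : ℕ)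
    (S : Finset (Fin n → ZMod p)), APFree k S → Supp d M S → (M : ℝ) ≤ (p : ℝ) ^ (c * n) →
    (S.card : ℝ) ≤ C * (p : ℝ) ^ ((1 - 2 * c) * n) := by
  obtain ⟨j, rfl⟩ : ∃ j, k = j + 3 := ⟨k - 3, by omega⟩
  have ek1 : j + 3 - 1 = j + 2 := by omega
  have ek2 : j + 3 - 2 = j + 1 := by omega
  rw [ek1, ek2] at hp
  have hp4 : 4 ≤ p := by omega
  have hp' : (4 : ℝ) ≤ p := by exact_mod_cast hp4
  have hp0 : (0 : ℝ) < p := by linarith
  have hlog : 1 ≤ Real.log p := by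
    rw [Real.le_log_iff_exp_le hp0]
    have := Real.exp_one_lt_d9
    linarith
  set a : ℕ := 2 * d * (j + 2) * (j + 1) with ha
  have ha1 : 1 ≤ a := Nat.mul_pos (Nat.mul_pos (by omega) (by omega)) (by omega)
  have har : (1 : ℝ) ≤ a := by exact_mod_cast ha1
  have ha0 : (0 : ℝ) < a := by linarith
  have hpa : (j + 2) ^ (2 * a) ≤ p := by
    have : 2 * a = 4 * d * (j + 2) * (j + 1) := by rw [ha]; ring
    rw [this]; exact hp
  set c : ℝ := 1 / (16 * (a : ℝ) * (j + 2) ^ 2 * Real.log p) with hc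
  have hj2 : (1 : ℝ) ≤ ((j : ℝ) + 2) ^ 2 := by nlinarith [(Nat.cast_nonneg j : (0 : ℝ) ≤ j)]
  have hden : 0 < 16 * (a : ℝ) * (j + 2) ^ 2 * Real.log p := by positivity
  have hc0 : 0 < c := by positivity
  have hc3 : 3 * c ≤ 1 / (2 * a) := by
    rw [hc, mul_one_div, div_le_div_iff₀ hden (by positivity)]
    have h1 : (1 : ℝ) ≤ (j + 2) ^ 2 * Real.log p := by nlinarith
    nlinarith [mul_le_mul_of_nonneg_left h1 ha0.le]
  have hc1 : c ≤ 1 := by
    have : 1 / (2 * (a : ℝ)) ≤ 1 := by rw [div_le_one (by positivity)]; linarith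
    linarith
  refine ⟨c, p + 4, hc0, hc1, ?_⟩
  intro n M S hS hSupp hM
  have hpos : (0 : ℝ) ≤ (p : ℝ) ^ ((1 - 2 * c) * n) := Real.rpow_nonneg hp0.le _
  obtain ⟨F, co, hF, hx⟩ := hSupp
  set t := n / a with ht
  set u := (p - 1) / (j + 2) with hu
  have hu1 : u * (j + 2) ≤ p - 1 := Nat.div_mul_le_self _ _
  have hu2 : p ≤ (u + 1) * (j + 2) := by
    have := Nat.lt_div_mul_add (a := p - 1) (b := j + 2) (by omega)
    rw [← hu] at this
    have e : (u + 1) * (j + 2) = u * (j + 2) + (j + 2) := by ring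
    omega
  have hup : u + 1 ≤ p := by
    have : u * 1 ≤ u * (j + 2) := Nat.mul_le_mul_left _ (by omega)
    omega
  obtain ⟨z, E, hz, hE, hcS⟩ := main_ineq (d := d) (by omega : 2 ≤ j + 3) hkp t
    (u * n) F hF co S hS hx
  rw [Fintype.card_fin] at hz hE
  rw [ek2] at hcS
  have hlow := lower_simple (p := p) n u hup
  set m := (Red p (Fin n) (u * n)).card with hm
  have hm0 : 0 < m := lt_of_lt_of_le (by positivity) hlow
  have hz1 : z ≤ (j + 2) ^ n * E := by
    refine Nat.le_of_mul_le_mul_right (?_ : z * m ≤ (j + 2) ^ n * E * m) hm0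
    calc z * m ≤ p ^ n * E := hz
      _ ≤ ((u + 1) * (j + 2)) ^ n * E := Nat.mul_le_mul_right _ (Nat.pow_le_pow_left hu2 _)
      _ = (u + 1) ^ n * ((j + 2) ^ n * E) := by rw [mul_pow]; ring
      _ ≤ m * ((j + 2) ^ n * E) := Nat.mul_le_mul_right _ hlow
      _ = _ := by ring
  have hz2 : z * p ^ t ≤ (j + 2) ^ n * (M * p ^ n) := by
    calc z * p ^ t ≤ (j + 2) ^ n * E * p ^ t := Nat.mul_le_mul_right _ hz1
      _ = (j + 2) ^ n * (p ^ t * E) := by ring
      _ ≤ _ := Nat.mul_le_mul_left _ hE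
  have hjn : ((j : ℝ) + 2) ^ n ≤ (p : ℝ) ^ ((n : ℝ) / (2 * a)) := by
    have h1 : ((j : ℝ) + 2) ^ (2 * a) ≤ p := by exact_mod_cast hpa
    have h2 : ((j : ℝ) + 2) = (((j : ℝ) + 2) ^ (2 * a)) ^ (1 / (2 * (a : ℝ))) := by
      rw [← Real.rpow_natCast, ← Real.rpow_mul (by positivity)]
      push_cast
      rw [mul_one_div, div_self (by positivity), Real.rpow_one]
    have h3 : ((j : ℝ) + 2) ≤ (p : ℝ) ^ (1 / (2 * (a : ℝ))) := by
      rw [h2]
      exact Real.rpow_le_rpow (by positivity) h1 (by positivity)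
    calc ((j : ℝ) + 2) ^ n ≤ ((p : ℝ) ^ (1 / (2 * (a : ℝ)))) ^ n :=
          pow_le_pow_left₀ (by positivity) h3 n
      _ = (p : ℝ) ^ ((n : ℝ) / (2 * a)) := by
          rw [← Real.rpow_natCast, ← Real.rpow_mul hp0.le]; congr 1; ring
  have hpm : ((p - 1 : ℕ) : ℝ) = p - 1 := by rw [Nat.cast_sub (by omega)]; simp
  have htn : (t : ℝ) ≤ n / a := by rw [ht]; exact Nat.cast_div_le
  have hD : ((((j + 1) * ((p - 1) * d * t + u * n) / 2 : ℕ)) : ℝ) ≤
      (1 - 1 / (2 * ((j : ℝ) + 2))) * ((p : ℝ) - 1) * Fintype.card (Fin n) / 2 := by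
    rw [Fintype.card_fin]
    refine (Nat.cast_div_le).trans ?_
    push_cast
    rw [hpm]
    have hj0 : (0 : ℝ) ≤ j := Nat.cast_nonneg _
    have hn0 : (0 : ℝ) ≤ n := Nat.cast_nonneg _
    have hu3 : (u : ℝ) ≤ (p - 1) / (j + 2) := by
      rw [le_div_iff₀ (by positivity), ← hpm]
      exact_mod_cast hu1
    have hd0 : (0 : ℝ) < d := by exact_mod_cast hd
    have e1 : ((j : ℝ) + 1) * ((p - 1) * d * t) ≤ (p - 1) * (n / (2 * (j + 2))) := by
      have haR : (a : ℝ) = 2 * d * (j + 2) * (j + 1) := by rw [ha]; push_cast; ring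
      calc ((j : ℝ) + 1) * ((p - 1) * d * t) ≤ ((j : ℝ) + 1) * ((p - 1) * d * (n / a)) := by
            refine mul_le_mul_of_nonneg_left (mul_le_mul_of_nonneg_left htn ?_) (by positivity)
            exact mul_nonneg (by linarith) hd0.le
        _ = _ := by rw [haR]; field_simp
    have e2 : ((j : ℝ) + 1) * (u * n) ≤ (p - 1) * n * ((j + 1) / (j + 2)) := by
      calc ((j : ℝ) + 1) * (u * n) ≤ ((j : ℝ) + 1) * ((p - 1) / (j + 2) * n) :=
            mul_le_mul_of_nonneg_left (mul_le_mul_of_nonneg_right hu3 hn0) (by positivity)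
        _ = _ := by ring
    have e3 : (p - 1) * ((n : ℝ) / (2 * (j + 2))) + (p - 1) * n * ((j + 1) / (j + 2)) =
        (1 - 1 / (2 * ((j : ℝ) + 2))) * ((p : ℝ) - 1) * n := by
      field_simp
      ring
    have e4 : ((j : ℝ) + 1) * ((p - 1) * d * t + u * n) ≤
        (1 - 1 / (2 * ((j : ℝ) + 2))) * ((p : ℝ) - 1) * n := by
      rw [← e3, mul_add]; exact add_le_add e1 e2
    linarith
  have hm2 := card_Red_le (p := p) (ι := Fin n) _ (1 / (2 * ((j : ℝ) + 2))) (by positivity) hD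
  rw [Fintype.card_fin] at hm2
  have hz3 : (z : ℝ) * (p : ℝ) ^ ((t : ℝ) - n / (2 * a)) ≤ M * (p : ℝ) ^ (n : ℝ) := by
    rw [Real.rpow_sub hp0, Real.rpow_natCast, Real.rpow_natCast, ← mul_div_assoc,
      div_le_iff₀ (Real.rpow_pos_of_pos hp0 _)]
    have h1 : (z : ℝ) * (p : ℝ) ^ t ≤ ((j : ℝ) + 2) ^ n * (M * (p : ℝ) ^ n) := by
      exact_mod_cast hz2
    calc (z : ℝ) * (p : ℝ) ^ t ≤ _ := h1
      _ ≤ (p : ℝ) ^ ((n : ℝ) / (2 * a)) * (M * (p : ℝ) ^ n) :=
          mul_le_mul_of_nonneg_right hjn (by positivity)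
      _ = _ := by ring
  have hfin := combine (p := p) (n := n) (by omega) c ((t : ℝ) - n / (2 * a))
    ((1 / (2 * ((j : ℝ) + 2))) ^ 2 * n / 2) M z
    ((Red p (Fin n) ((j + 1) * ((p - 1) * d * t + u * n) / 2)).card : ℝ) hz3 hM ?_
    (by rw [Real.rpow_natCast]; exact hm2) ?_
  · have h5 : (S.card : ℝ) ≤ z + 4 * ((Red p (Fin n) ((j + 1) * ((p - 1) * d * t +
      u * n) / 2)).card : ℝ) := by exact_mod_cast hcS
    exact h5.trans hfin
  · have h6 : 3 * c * n ≤ n / (2 * a) := by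
      calc 3 * c * n ≤ 1 / (2 * a) * n := mul_le_mul_of_nonneg_right hc3 (Nat.cast_nonneg _)
        _ = n / (2 * a) := by ring
    have h7 : (n : ℝ) / a ≤ t + 1 := by
      have h8 := Nat.lt_div_mul_add (a := n) (b := a) (by omega)
      rw [← ht] at h8
      rw [div_le_iff₀ ha0]
      have h9 : (n : ℝ) < t * a + a := by exact_mod_cast h8
      linarith
    have h10 : (n : ℝ) / a = n / (2 * a) + n / (2 * a) := by ring
    linarith
  · rw [hc]
    have hl0 : Real.log p ≠ 0 := by linarith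
    have e1 : 2 * (1 / (16 * (a : ℝ) * (j + 2) ^ 2 * Real.log p)) * n * Real.log p =
        (1 / (2 * ((j : ℝ) + 2))) ^ 2 * n / 2 * (1 / a) := by field_simp; ring
    rw [e1]
    refine mul_le_of_le_one_right (by positivity) ?_
    rw [div_le_one ha0]; exact har

end Pool.Agent.H281A
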