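import Mathlib

/-!
Functions of bounded degree on `F_p ^ ι`: products, substitutions, reduced monomials, the rank of
matrices given by polynomials, and the averaging lemma.
-/

set_option autoImplicit false

namespace Pool.Agent.H281A

open Finset

variable {p : ℕ} [Fact p.Prime] {ι κ : Type} [Fintype ι] [Fintype κ]

/-- The functions on `F_p ^ ι` given by polynomials of degree at most `D`. -/
def L (p : ℕ) [Fact p.Prime] (ι : Type) [Fintype ι] (D : ℕ) :
    Submodule (ZMod p) ((ι → ZMod p) → ZMod p) :=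
  Submodule.span (ZMod p)
    {f | ∃ e : ι → ℕ, ∑ i, e i ≤ D ∧ f = fun x => ∏ i, x i ^ e i}

lemma mon_mem {D : ℕ} (e : ι → ℕ) (he : ∑ i, e i ≤ D) :
    (fun x : ι → ZMod p => ∏ i, x i ^ e i) ∈ L p ι D :=
  Submodule.subset_span ⟨e, he, rfl⟩

lemma L_mono {D D' : ℕ} (h : D ≤ D') : L p ι D ≤ L p ι D' := by
  unfold L
  refine Submodule.span_mono ?_
  rintro f ⟨e, he, rfl⟩
  exact ⟨e, he.trans h, rfl⟩

lemma L_mul {a b : ℕ} {f g : (ι → ZMod p) → ZMod p} (hf : f ∈ L p ι a) (hg : g ∈ L p ι b) :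
    f * g ∈ L p ι (a + b) := by
  have h := Submodule.mul_mem_mul hf hg
  refine (?_ : L p ι a * L p ι b ≤ L p ι (a + b)) h
  unfold L
  rw [Submodule.span_mul_span, Submodule.span_le]
  rintro _ ⟨f, ⟨e, he, rfl⟩, g, ⟨e', he', rfl⟩, rfl⟩
  refine Submodule.subset_span ⟨e + e', ?_, ?_⟩
  · simp only [Pi.add_apply, Finset.sum_add_distrib]
    omega
  · funext x
    simp only [Pi.mul_apply, Pi.add_apply, pow_add, Finset.prod_mul_distrib]

lemma L_one (D : ℕ) : (1 : (ι → ZMod p) → ZMod p) ∈ L p ι D := by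
  have h := mon_mem (p := p) (ι := ι) (D := D) (fun _ => 0) (by simp)
  convert h using 1
  funext x
  simp

lemma L_const (D : ℕ) (c : ZMod p) : (fun _ => c : (ι → ZMod p) → ZMod p) ∈ L p ι D := by
  have h := Submodule.smul_mem (L p ι D) c (L_one D)
  convert h using 1
  funext x
  simp

lemma L_coord (i : ι) : (fun x : ι → ZMod p => x i) ∈ L p ι 1 := by
  classical
  have h := mon_mem (p := p) (ι := ι) (D := 1) (Pi.single i 1) (by simp)
  convert h using 1
  funext x
  rw [Finset.prod_eq_single i]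
  · simp
  · intro j _ hj; simp [Pi.single_eq_of_ne hj]
  · intro h; exact absurd (Finset.mem_univ _) h

lemma L_prod {α : Type*} (s : Finset α) (D : α → ℕ) (f : α → (ι → ZMod p) → ZMod p)
    (h : ∀ a ∈ s, f a ∈ L p ι (D a)) : ∏ a ∈ s, f a ∈ L p ι (∑ a ∈ s, D a) := by
  classical
  induction s using Finset.induction_on with
  | empty => simpa using L_one 0
  | insert a s ha ih =>
    rw [Finset.prod_insert ha, Finset.sum_insert ha]
    exact L_mul (h a (Finset.mem_insert_self _ _))
      (ih fun b hb => h b (Finset.mem_insert_of_mem hb))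

lemma L_pow {D : ℕ} (k : ℕ) {f : (ι → ZMod p) → ZMod p} (h : f ∈ L p ι D) :
    f ^ k ∈ L p ι (k * D) := by
  induction k with
  | zero => simpa using L_one 0
  | succ k ih =>
    rw [pow_succ, add_mul, one_mul]
    exact L_mul ih h

lemma L_comp {D : ℕ} {f : (ι → ZMod p) → ZMod p} (hf : f ∈ L p ι D)
    (φ : (κ → ZMod p) → ι → ZMod p) (hφ : ∀ i, (fun y => φ y i) ∈ L p κ 1) :
    (fun y => f (φ y)) ∈ L p κ D := by
  unfold L at hf
  induction hf using Submodule.span_induction with
  | mem f hf =>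
    obtain ⟨e, he, rfl⟩ := hf
    have h := L_prod (p := p) (ι := κ) Finset.univ (fun i => e i * 1)
      (fun i => (fun y => φ y i) ^ e i) (fun i _ => L_pow (e i) (hφ i))
    simp only [mul_one] at h
    have h2 := L_mono he h
    convert h2 using 1
    funext y
    simp [Finset.prod_apply]
  | zero => exact Submodule.zero_mem _
  | add f g _ _ hf hg => exact Submodule.add_mem _ hf hg
  | smul c f _ hf => exact Submodule.smul_mem _ c hf

/-- Reduced exponents of degree at most `D`. -/
def Red (p : ℕ) (ι : Type) [Fintype ι] [DecidableEq ι] (D : ℕ) : Finset (ι → Fin p) :=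
  univ.filter fun e => ∑ i, (e i : ℕ) ≤ D

variable [DecidableEq ι] [DecidableEq κ]

omit [Fact p.Prime] in
lemma mem_Red {D : ℕ} {e : ι → Fin p} : e ∈ Red p ι D ↔ ∑ i, (e i : ℕ) ≤ D := by
  simp [Red]

/-- reduction of an exponent -/
lemma red_exp (e : ℕ) : ∃ r : Fin p, (r : ℕ) ≤ e ∧ ∀ x : ZMod p, x ^ e = x ^ (r : ℕ) := by
  have hp := (Fact.out : p.Prime)
  induction e using Nat.strong_induction_on with
  | _ e ih =>
    by_cases h : e < p
    · exact ⟨⟨e, h⟩, le_rfl, fun x => rfl⟩
    · push Not at h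
      have h2 := hp.two_le
      obtain ⟨r, hr, hx⟩ := ih (e - (p - 1)) (by omega)
      refine ⟨r, by omega, fun x => ?_⟩
      rw [← hx x]
      have e1 : e = p + (e - p) := by omega
      have e2 : e - (p - 1) = 1 + (e - p) := by omega
      rw [e2, pow_add, pow_one]
      conv_lhs => rw [e1, pow_add, ZMod.pow_card]

lemma L_le_red (D : ℕ) {f : (ι → ZMod p) → ZMod p} (hf : f ∈ L p ι D) :
    ∃ c : (ι → Fin p) → ZMod p, (∀ e, e ∉ Red p ι D → c e = 0) ∧
      ∀ x, f x = ∑ e, c e * ∏ i, x i ^ (e i : ℕ) := by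
  classical
  unfold L at hf
  induction hf using Submodule.span_induction with
  | mem f hf =>
    obtain ⟨e, he, rfl⟩ := hf
    choose r hr hx using fun i => red_exp (p := p) (e i)
    refine ⟨Pi.single r 1, ?_, ?_⟩
    · intro e' he'
      by_cases h : e' = r
      · exfalso; apply he'; rw [h, mem_Red]
        exact (Finset.sum_le_sum fun i _ => hr i).trans he
      · rw [Pi.single_eq_of_ne h]
    · intro x
      rw [Finset.sum_eq_single r]
      · simp only [Pi.single_eq_same, one_mul]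
        exact Finset.prod_congr rfl fun i _ => hx i (x i)
      · intro b _ hb; simp [Pi.single_eq_of_ne hb]
      · intro h; exact absurd (Finset.mem_univ _) h
  | zero => exact ⟨0, fun _ _ => rfl, fun x => by simp⟩
  | add f g _ _ hf hg =>
    obtain ⟨c, hc, hcx⟩ := hf
    obtain ⟨c', hc', hcx'⟩ := hg
    refine ⟨c + c', fun e he => by simp [hc e he, hc' e he], fun x => ?_⟩
    simp only [Pi.add_apply, hcx x, hcx' x, add_mul, Finset.sum_add_distrib]
  | smul a f _ hf =>
    obtain ⟨c, hc, hcx⟩ := hf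
    refine ⟨a • c, fun e he => by simp [hc e he], fun x => ?_⟩
    simp only [Pi.smul_apply, smul_eq_mul, hcx x, Finset.mul_sum, mul_assoc]

/-- The rank bound. -/
theorem rank_bound {D : ℕ} {G : (ι ⊕ ι → ZMod p) → ZMod p} (hG : G ∈ L p (ι ⊕ ι) D)
    (T : Finset (ι → ZMod p)) (h1 : ∀ x ∈ T, G (Sum.elim x x) ≠ 0)
    (h2 : ∀ x ∈ T, ∀ z ∈ T, x ≠ z → G (Sum.elim x z) = 0) :
    T.card ≤ 2 * (Red p ι (D / 2)).card := by
  classical
  obtain ⟨c, hc, hcx⟩ := L_le_red D hG
  -- the matrix
  let M : Matrix T T (ZMod p) := Matrix.of fun x z => G (Sum.elim x.1 z.1)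
  have hM : M = Matrix.diagonal fun x : T => G (Sum.elim x.1 x.1) := by
    ext x z
    by_cases h : x = z
    · subst h; simp [M]
    · rw [Matrix.diagonal_apply_ne _ h]
      exact h2 x.1 x.2 z.1 z.2 fun h' => h (Subtype.ext h')
  have hr : M.rank = T.card := by
    rw [hM, Matrix.rank_diagonal]
    rw [← Fintype.card_coe T]
    refine Fintype.card_congr (Equiv.subtypeUnivEquiv fun x => h1 x.1 x.2)
  let R := Red p ι (D / 2)
  let X : Matrix T R (ZMod p) := Matrix.of fun x a => ∏ i, x.1 i ^ (a.1 i : ℕ)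
  let Y : Matrix R T (ZMod p) := Matrix.of fun a z =>
    ∑ b : ι → Fin p, c (Sum.elim a.1 b) * ∏ i, z.1 i ^ (b i : ℕ)
  let Y' : Matrix T R (ZMod p) := Matrix.of fun x b =>
    ∑ a : ι → Fin p, if a ∈ R then 0 else c (Sum.elim a b.1) * ∏ i, x.1 i ^ (a i : ℕ)
  let X' : Matrix R T (ZMod p) := Matrix.of fun b z => ∏ i, z.1 i ^ (b.1 i : ℕ)
  have hdec : M = X * Y + Y' * X' := by
    ext x z
    have e1 : M x z = ∑ a : ι → Fin p, ∑ b : ι → Fin p, c (Sum.elim a b) *
        ((∏ i, x.1 i ^ (a i : ℕ)) * ∏ i, z.1 i ^ (b i : ℕ)) := by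
      show G (Sum.elim x.1 z.1) = _
      rw [hcx]
      rw [← (Equiv.sumArrowEquivProdArrow ι ι (Fin p)).symm.sum_comp, Fintype.sum_prod_type]
      refine Finset.sum_congr rfl fun a _ => Finset.sum_congr rfl fun b _ => ?_
      rw [Fintype.prod_sum_type]
      rfl
    have e2 : (X * Y) x z = ∑ a : ι → Fin p, ∑ b : ι → Fin p, if a ∈ R then c (Sum.elim a b) *
        ((∏ i, x.1 i ^ (a i : ℕ)) * ∏ i, z.1 i ^ (b i : ℕ)) else 0 := by
      rw [Matrix.mul_apply]
      show ∑ a : R, (∏ i, x.1 i ^ (a.1 i : ℕ)) *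
        (∑ b : ι → Fin p, c (Sum.elim a.1 b) * ∏ i, z.1 i ^ (b i : ℕ)) = _
      rw [Finset.sum_coe_sort R fun a => (∏ i, x.1 i ^ (a i : ℕ)) *
        (∑ b : ι → Fin p, c (Sum.elim a b) * ∏ i, z.1 i ^ (b i : ℕ))]
      rw [← Finset.sum_subset (Finset.subset_univ R)]
      · refine Finset.sum_congr rfl fun a ha => ?_
        rw [Finset.mul_sum]
        refine Finset.sum_congr rfl fun b _ => ?_
        rw [if_pos ha]; ring
      · intro a _ ha
        exact Finset.sum_eq_zero fun b _ => if_neg ha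
    have e3 : (Y' * X') x z = ∑ a : ι → Fin p, ∑ b : ι → Fin p, if a ∈ R then 0 else
        c (Sum.elim a b) * ((∏ i, x.1 i ^ (a i : ℕ)) * ∏ i, z.1 i ^ (b i : ℕ)) := by
      rw [Matrix.mul_apply]
      show ∑ b : R, (∑ a : ι → Fin p, if a ∈ R then 0 else
        c (Sum.elim a b.1) * ∏ i, x.1 i ^ (a i : ℕ)) * (∏ i, z.1 i ^ (b.1 i : ℕ)) = _
      rw [Finset.sum_coe_sort R fun b => (∑ a : ι → Fin p, if a ∈ R then 0 else
        c (Sum.elim a b) * ∏ i, x.1 i ^ (a i : ℕ)) * (∏ i, z.1 i ^ (b i : ℕ))]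
      rw [Finset.sum_comm]
      rw [← Finset.sum_subset (Finset.subset_univ R)]
      · refine Finset.sum_congr rfl fun b _ => ?_
        rw [Finset.sum_mul]
        refine Finset.sum_congr rfl fun a _ => ?_
        split_ifs
        · rw [zero_mul]
        · ring
      · intro b _ hb
        refine Finset.sum_eq_zero fun a _ => ?_
        split_ifs with ha
        · rfl
        · rw [hc (Sum.elim a b), zero_mul]
          rw [mem_Red, Fintype.sum_sum_type]
          simp only [Sum.elim_inl, Sum.elim_inr]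
          simp only [R, mem_Red] at ha hb
          omega
    rw [Matrix.add_apply, e1, e2, e3, ← Finset.sum_add_distrib]
    refine Finset.sum_congr rfl fun a _ => ?_
    rw [← Finset.sum_add_distrib]
    refine Finset.sum_congr rfl fun b _ => ?_
    split_ifs
    · rw [add_zero]
    · rw [zero_add]
  rw [← hr, hdec, ← Matrix.fromCols_mul_fromRows]
  refine (Matrix.rank_mul_le_left _ _).trans ((Matrix.rank_le_card_width _).trans ?_)
  rw [Fintype.card_sum, Fintype.card_coe, two_mul]

/-- The averaging lemma. -/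
theorem avg {α : Type} [Fintype α] (W : Submodule (ZMod p) (α → ZMod p)) (X : Finset α)
    (h : ∀ x ∈ X, ∃ w ∈ W, w x ≠ 0) :
    ∃ w ∈ W, p * (open Classical in (X.filter fun x => w x = 0)).card ≤ X.card := by
  classical
  set WF : Finset (α → ZMod p) := univ.filter fun f => f ∈ W with hWF
  have hm : ∀ f, f ∈ WF ↔ f ∈ W := fun f => by simp [hWF]
  have hne : WF.Nonempty := ⟨0, (hm 0).2 W.zero_mem⟩
  have hx : ∀ x ∈ X, p * (WF.filter fun w => w x = 0).card = WF.card := by
    intro x hxX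
    obtain ⟨w0, hw0, hw0x⟩ := h x hxX
    have h1 : WF.card = ∑ c : ZMod p, (WF.filter fun w => w x = c).card :=
      Finset.card_eq_sum_card_fiberwise (f := fun w : α → ZMod p => w x) (t := univ)
        fun w _ => by simp
    rw [h1]
    have h2 : ∀ c : ZMod p, (WF.filter fun w => w x = c).card =
        (WF.filter fun w => w x = 0).card := by
      intro c
      refine Finset.card_bij' (fun w _ => w - (c * (w0 x)⁻¹) • w0)
        (fun w _ => w + (c * (w0 x)⁻¹) • w0) ?_ ?_ ?_ ?_
      · intro w hw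
        rw [Finset.mem_filter, hm] at hw ⊢
        refine ⟨W.sub_mem hw.1 (W.smul_mem _ hw0), ?_⟩
        simp only [Pi.sub_apply, Pi.smul_apply, smul_eq_mul]
        rw [hw.2, mul_assoc, inv_mul_cancel₀ hw0x, mul_one, sub_self]
      · intro w hw
        rw [Finset.mem_filter, hm] at hw ⊢
        refine ⟨W.add_mem hw.1 (W.smul_mem _ hw0), ?_⟩
        simp only [Pi.add_apply, Pi.smul_apply, smul_eq_mul]
        rw [hw.2, mul_assoc, inv_mul_cancel₀ hw0x, mul_one, zero_add]
      · intro w _; simp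
      · intro w _; simp
    rw [Finset.sum_congr rfl fun c _ => h2 c, Finset.sum_const, smul_eq_mul, Finset.card_univ,
      ZMod.card]
  by_contra hcon
  push Not at hcon
  have h1 : ∑ w ∈ WF, p * (X.filter fun x => w x = 0).card = X.card * WF.card := by
    rw [← Finset.mul_sum]
    simp only [Finset.card_filter]
    rw [Finset.sum_comm, Finset.mul_sum]
    calc ∑ x ∈ X, p * ∑ w ∈ WF, (if w x = 0 then 1 else 0) = ∑ x ∈ X, WF.card := by
          refine Finset.sum_congr rfl fun x hxX => ?_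
          rw [← Finset.card_filter]
          exact hx x hxX
      _ = X.card * WF.card := by rw [Finset.sum_const, smul_eq_mul]
  have h2 : ∑ _w ∈ WF, X.card < ∑ w ∈ WF, p * (X.filter fun x => w x = 0).card := by
    refine Finset.sum_lt_sum_of_nonempty hne fun w hw => ?_
    have := hcon w ((hm w).1 hw)
    convert this
  rw [h1, Finset.sum_const, smul_eq_mul, mul_comm] at h2
  exact lt_irrefl _ h2

end Pool.Agent.H281A
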